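import Pool.Agent.H38.T35.Six

/-!
# T35 module CaseB: `|3 K| = 9`

`ZZ K` has 27 elements and `TT K` only 9: take `k ∈ ZZ K`, `k ∉ TT K` and (`sep`) `m : K →+ ZMod 3` with `m k ≠ 0`; `l = m.comp (AddMonoidHom.snd H K)`; `{k ∈ ZZ K | l (0, k) = 0}` has 9 elements (the kernel of a nonzero homomorphism from the group `ZZ K` to `ZMod 3`).
`sum_EE`: `∑ EE = 963`; `sum_sq`: `∑ n ^ 2 = 2403`; `3 * EE - n ^ 2` is `0` (empty), `0` or `162` (size 9), `18` or `288` (size 12, six of them): `486 = 162 k + 18 (6 - b) + 288 b`, impossible modulo 54 · … (`7 = 3 k + 5 b`).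
-/

set_option autoImplicit false

namespace Pool.Agent.H38.T35

open Finset Pool.Agent.H88.Pl Pool.Agent.H16.RB Pool.Agent.H38.RX
open scoped Classical

variable {H K : Type*} [AddCommGroup H] [AddCommGroup K] [Fintype H] [Fintype K]

/-- a sum of terms which are `a` or `a + d` -/
private theorem sum_two {X : Type*} (s : Finset X) (g : X → ℤ) (a d : ℤ)
    (h : ∀ v ∈ s, g v = a ∨ g v = a + d) : ∃ j : ℕ, ∑ v ∈ s, g v = s.card * a + d * j := by
  refine ⟨(s.filter fun v => ¬ g v = a).card, ?_⟩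
  have h1 : ∀ v ∈ s, g v = a + d * (if ¬ g v = a then 1 else 0) := by
    intro v hv
    by_cases h2 : g v = a
    · rw [if_neg (not_not.2 h2), h2]
      ring
    · rw [if_pos h2]
      rcases h v hv with h3 | h3
      · exact absurd h3 h2
      · rw [h3]
        ring
  rw [sum_congr rfl h1, sum_add_distrib, ← mul_sum, sum_const, nsmul_eq_mul, sum_boole]

/-- the kernel of a nonzero functional on `A[3]` is a third of it -/
private theorem card_ker {A : Type*} [AddCommGroup A] [Fintype A] (m : A →+ ZMod 3) {k : A}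
    (hk : k ∈ ZZ A) (hm : m k ≠ 0) (hZ : (ZZ A).card = 27) :
    ((ZZ A).filter fun a => m a = 0).card = 9 := by
  have hk3 : 3 • k = 0 := (mem_filter.1 hk).2
  have hs : ∀ c : ZMod 3, ((ZZ A).filter fun a => m a = c).card =
      ((ZZ A).filter fun a => m a = c + m k).card := by
    intro c
    refine card_bij (fun a _ => a + k) ?_ ?_ ?_
    · intro a ha
      obtain ⟨h1, h2⟩ := mem_filter.1 ha
      have h3 : 3 • a = 0 := (mem_filter.1 h1).2
      refine mem_filter.2 ⟨mem_filter.2 ⟨mem_univ _, ?_⟩, ?_⟩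
      · rw [smul_add, h3, hk3, add_zero]
      · rw [map_add, h2]
    · intro a _ b _ hab
      exact add_right_cancel hab
    · intro b hb
      obtain ⟨h1, h2⟩ := mem_filter.1 hb
      have h3 : 3 • b = 0 := (mem_filter.1 h1).2
      refine ⟨b - k, mem_filter.2 ⟨mem_filter.2 ⟨mem_univ _, ?_⟩, ?_⟩, sub_add_cancel b k⟩
      · rw [smul_sub, h3, hk3, sub_zero]
      · rw [map_sub, h2, add_sub_cancel_right]
  have hsum : ((ZZ A).filter fun a => m a = 0).card + ((ZZ A).filter fun a => m a = 1).card +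
      ((ZZ A).filter fun a => m a = 2).card = 27 := by
    have hf := card_eq_sum_card_fiberwise (s := ZZ A) (f := fun a => m a) (t := univ)
      (fun _ _ => mem_coe.2 (mem_univ _))
    have hu : (univ : Finset (ZMod 3)) = {0, 1, 2} := by decide
    rw [hu, sum_insert (by decide), sum_insert (by decide), sum_singleton, ← add_assoc, hZ] at hf
    exact hf.symm
  have h0 := hs 0
  have h1 := hs 1
  have h2 := hs 2
  generalize hc : m k = c at *
  fin_cases c
  · exact absurd rfl hm
  · have e0 : (0 : ZMod 3) + 1 = 1 := by decide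
    have e1 : (1 : ZMod 3) + 1 = 2 := by decide
    change ((ZZ A).filter fun a => m a = 0).card =
      ((ZZ A).filter fun a => m a = 0 + 1).card at h0
    change ((ZZ A).filter fun a => m a = 1).card =
      ((ZZ A).filter fun a => m a = 1 + 1).card at h1
    rw [e0] at h0
    rw [e1] at h1
    omega
  · have e0 : (0 : ZMod 3) + 2 = 2 := by decide
    have e2 : (2 : ZMod 3) + 2 = 1 := by decide
    change ((ZZ A).filter fun a => m a = 0).card =
      ((ZZ A).filter fun a => m a = 0 + 2).card at h0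
    change ((ZZ A).filter fun a => m a = 2).card =
      ((ZZ A).filter fun a => m a = 2 + 2).card at h2
    rw [e0] at h0
    rw [e2] at h2
    omega

theorem Sit.falseB {f : H → K} (E : Sit f) (hTK : (TT K).card = 9) (hZK : (ZZ K).card = 27) :
    False := by
  obtain ⟨k, hkZ, hkT⟩ : ∃ k, k ∈ ZZ K ∧ k ∉ TT K := by
    by_contra hcon
    push Not at hcon
    have h1 := card_le_card (show ZZ K ⊆ TT K from fun k hk => hcon k hk)
    omega
  obtain ⟨m, hm⟩ : ∃ m : K →+ ZMod 3, m k ≠ 0 := by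
    by_contra hcon
    push Not at hcon
    obtain ⟨g, hg⟩ := sep (p := 3) k hcon
    exact hkT (mem_filter.2 ⟨mem_univ _, g, hg⟩)
  have hk3 : 3 • k = 0 := (mem_filter.1 hkZ).2
  set l : H × K →+ ZMod 3 := m.comp (AddMonoidHom.snd H K) with hl
  have hEE := E.sum_EE l ⟨(0, k), by
    rw [Prod.smul_mk, smul_zero, hk3]
    rfl, hm⟩
  have hker : ((ZZ K).filter fun a => l (0, a) = 0).card = 9 := card_ker m hkZ hm hZK
  have hsq := E.sum_sq
  rw [hker] at hEE
  rw [hZK] at hsq
  obtain ⟨hB1, hB2⟩ := E.caseB hZK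
  -- the terms
  set T : H × K → ℤ := fun v => 3 * (EE f (sl 3 f v) l : ℤ) - ((sl 3 f v).card : ℤ) ^ 2 with hT
  have hsum : ∑ v ∈ PP 3 H K, T v = 486 := by
    have h1 : ∑ v ∈ PP 3 H K, (EE f (sl 3 f v) l : ℤ) = 963 := by
      have : ∑ v ∈ PP 3 H K, EE f (sl 3 f v) l = 963 := by omega
      exact_mod_cast this
    have h2 : ∑ v ∈ PP 3 H K, ((sl 3 f v).card : ℤ) ^ 2 = 2403 := by
      have : ∑ v ∈ PP 3 H K, (sl 3 f v).card ^ 2 = 2403 := by omega
      exact_mod_cast this
    rw [hT, sum_sub_distrib, ← mul_sum, h1, h2]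
    norm_num
  have hc : ∀ v, (∃ c, ∀ x ∈ sl 3 f v, l (gr f x) = c) →
      EE f (sl 3 f v) l = (sl 3 f v).card * (sl 3 f v).card := by
    rintro v ⟨c, hc⟩
    rw [EE, filter_true_of_mem, card_product]
    intro z hz
    obtain ⟨h1, h2⟩ := mem_product.1 hz
    rw [hc _ h1, hc _ h2]
  have h12 : ∀ v ∈ (PP 3 H K).filter fun v => (sl 3 f v).card = 12, T v = 18 ∨ T v = 18 + 270 := by
    intro v hv
    obtain ⟨hv1, hv2⟩ := mem_filter.1 hv
    simp only [hT]
    rcases E.no_six hZK hTK hv1 hv2 l with h | h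
    · right
      rw [h, hv2]
      norm_num
    · left
      rw [h, hv2]
      norm_num
  have h9 : ∀ v ∈ (PP 3 H K).filter fun v => ¬ (sl 3 f v).card = 12, T v = 0 ∨ T v = 0 + 162 := by
    intro v hv
    obtain ⟨hv1, hv2⟩ := mem_filter.1 hv
    simp only [hT]
    rcases hB1 v hv1 with h | h | h
    · left
      have h1 : sl 3 f v = ∅ := card_eq_zero.1 h
      have h2 := hc v ⟨0, fun x hx => by rw [h1] at hx; exact absurd hx (notMem_empty x)⟩
      rw [h2, h]
      norm_num
    · rcases E.nine_cn hv1 h l with h3 | h3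
      · right
        rw [hc v h3, h]
        norm_num
      · left
        rw [EE_eq, h3 0, h3 1, h3 2, h]
        norm_num
    · exact absurd h hv2
  obtain ⟨b, hb⟩ := sum_two _ T 18 270 h12
  obtain ⟨j, hj⟩ := sum_two _ T 0 162 h9
  have hsplit := sum_filter_add_sum_filter_not (PP 3 H K) (fun v => (sl 3 f v).card = 12) T
  rw [hsum, hb, hj, hB2] at hsplit
  push_cast at hsplit
  omega

end Pool.Agent.H38.T35
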