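import Pool.Agent.H38.T35.Defs

/-!
# T35 module Sep9: homomorphisms to `ZMod 9`

`sep9`: structure theorem (`AddCommGroup.equiv_directSum_zmod_of_finite'` or similar, see `exists_digits` in Pool/Agent/H16/RB/Dig.lean): `G` is a direct sum of `ZMod n` with `n ∣ 9`;
a component of `g` is nonzero, and `ZMod n` embeds in `ZMod 9`.
`three_homs`: `P = 3 G` has 27 elements, `a` is nonzero on `P` with values in `{0, 3, 6}` (as `3 P = 0`), so its kernel on `P` has 9 elements; take `g1 ≠ 0` in it and `b` with `b g1 ≠ 0`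
(`sep9`), the kernel of `b` on the kernel has 3 elements, take `g2 ≠ 0` in it and `c` with `c g2 ≠ 0`; the common kernel on `P` is trivial.
-/

set_option autoImplicit false

namespace Pool.Agent.H38.T35

private theorem Sep9_embed (n : ℕ) (hn : n ∣ 9) (x : ZMod n) (hx : x ≠ 0) :
    ∃ a : ZMod n →+ ZMod 9, a x ≠ 0 := by
  have h9 : n ≤ 9 := Nat.le_of_dvd (by norm_num) hn
  have hc : n = 1 ∨ n = 3 ∨ n = 9 := by
    interval_cases n <;> omega
  rcases hc with rfl | rfl | rfl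
  · exact absurd (Subsingleton.elim x 0) hx
  · refine ⟨ZMod.lift 3 ⟨(AddMonoidHom.mulLeft (3 : ZMod 9)).comp (Int.castAddHom (ZMod 9)), by
      decide⟩, ?_⟩
    revert hx
    revert x
    decide
  · exact ⟨AddMonoidHom.id _, hx⟩

theorem sep9 {G : Type*} [AddCommGroup G] [Finite G] (h9 : ∀ g : G, 9 • g = 0) (g : G)
    (hg : g ≠ 0) : ∃ a : G →+ ZMod 9, a g ≠ 0 := by
  classical
  obtain ⟨ι, _, n, hn, ⟨e⟩⟩ := AddCommGroup.equiv_directSum_zmod_of_finite' G
  have he : e g ≠ 0 := fun h => hg (e.injective (by rw [h, map_zero]))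
  obtain ⟨i, hi⟩ : ∃ i, (e g) i ≠ 0 := by
    by_contra hcon
    push Not at hcon
    exact he (DFinsupp.ext hcon)
  have hdvd : n i ∣ 9 := by
    have h1 : (9 : ℕ) • (DirectSum.of (fun i => ZMod (n i)) i 1) = 0 := by
      have h2 := h9 (e.symm (DirectSum.of (fun i => ZMod (n i)) i 1))
      have h3 := congrArg e h2
      rwa [map_nsmul, AddEquiv.apply_symm_apply, map_zero] at h3
    have h4 := DFunLike.congr_fun h1 i
    rw [← map_nsmul, DirectSum.of_eq_same] at h4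
    rw [← ZMod.natCast_eq_zero_iff]
    rw [nsmul_one] at h4
    exact h4
  obtain ⟨a, ha⟩ := Sep9_embed (n i) hdvd _ hi
  exact ⟨(a.comp (DFinsupp.evalAddMonoidHom i)).comp e.toAddMonoidHom, ha⟩

private theorem Sep9_step {G : Type*} [AddCommGroup G] [Finite G] (P : AddSubgroup G)
    (h27 : Nat.card P ∣ 27) (a : G →+ ZMod 9) (ha : ∃ x ∈ P, a x ≠ 0) :
    3 * Nat.card (P ⊓ a.ker : AddSubgroup G) ≤ Nat.card P ∧
      Nat.card (P ⊓ a.ker : AddSubgroup G) ∣ 27 := by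
  have h1 : Nat.card (P ⊓ a.ker : AddSubgroup G) * a.ker.relIndex P = Nat.card P := by
    have h := AddSubgroup.relIndex_mul_relIndex ⊥ (P ⊓ a.ker) P bot_le inf_le_left
    rwa [AddSubgroup.relIndex_bot_left, AddSubgroup.relIndex_bot_left,
      AddSubgroup.inf_relIndex_left] at h
  have h2 : a.ker.relIndex P ∣ 27 := (Dvd.intro_left _ h1).trans h27
  have h3 : a.ker.relIndex P ≠ 1 := by
    rw [Ne, AddSubgroup.relIndex_eq_one]
    intro h
    obtain ⟨x, hx, hax⟩ := ha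
    exact hax (h hx)
  have h4 : 3 ≤ a.ker.relIndex P := by
    by_contra hcon
    have h5 : a.ker.relIndex P = 0 ∨ a.ker.relIndex P = 2 := by omega
    rcases h5 with h5 | h5 <;> rw [h5] at h2 <;> revert h2 <;> decide
  refine ⟨?_, (Dvd.intro _ h1).trans h27⟩
  calc 3 * Nat.card (P ⊓ a.ker : AddSubgroup G)
      = Nat.card (P ⊓ a.ker : AddSubgroup G) * 3 := Nat.mul_comm _ _
    _ ≤ Nat.card (P ⊓ a.ker : AddSubgroup G) * a.ker.relIndex P := Nat.mul_le_mul_left _ h4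
    _ = Nat.card P := h1

private theorem Sep9_next {G : Type*} [AddCommGroup G] [Finite G] (h9 : ∀ g : G, 9 • g = 0)
    (P : AddSubgroup G) (h27 : Nat.card P ∣ 27) : ∃ b : G →+ ZMod 9,
      (3 * Nat.card (P ⊓ b.ker : AddSubgroup G) ≤ Nat.card P ∨ P = ⊥) ∧
      Nat.card (P ⊓ b.ker : AddSubgroup G) ∣ 27 := by
  by_cases hP : P = ⊥
  · refine ⟨0, Or.inr hP, ?_⟩
    rw [hP, bot_inf_eq]
    simp
  · obtain ⟨x, hx, hx0⟩ := P.bot_or_exists_ne_zero.resolve_left hP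
    obtain ⟨b, hb⟩ := sep9 h9 x hx0
    obtain ⟨h1, h2⟩ := Sep9_step P h27 b ⟨x, hx, hb⟩
    exact ⟨b, Or.inl h1, h2⟩

theorem three_homs {G : Type*} [AddCommGroup G] [Finite G] (h9 : ∀ g : G, 9 • g = 0)
    (hP : Nat.card (Set.range fun g : G => 3 • g) = 3 ^ 3) (a : G →+ ZMod 9)
    (ha : ∃ g : G, a (3 • g) ≠ 0) :
    ∃ b c : G →+ ZMod 9, ∀ g : G, a (3 • g) = 0 → b (3 • g) = 0 → c (3 • g) = 0 → 3 • g = 0 := by
  let P : AddSubgroup G := (nsmulAddMonoidHom (α := G) 3).range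
  have hPc : Nat.card P = 27 := by
    have h : ((P : AddSubgroup G) : Set G) = Set.range fun g : G => 3 • g := by
      ext x
      simp [P]
    have h' : Nat.card P = Nat.card (Set.range fun g : G => 3 • g) := by
      rw [← h]; rfl
    rw [h', hP]
    norm_num
  have hmem : ∀ g : G, 3 • g ∈ P := fun g => ⟨g, rfl⟩
  obtain ⟨g0, hg0⟩ := ha
  obtain ⟨h1, h1'⟩ := Sep9_step P (by rw [hPc]) a ⟨3 • g0, hmem g0, hg0⟩
  obtain ⟨b, h2, h2'⟩ := Sep9_next h9 _ h1'
  obtain ⟨c, h3, h3'⟩ := Sep9_next h9 _ h2'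
  refine ⟨b, c, fun g hga hgb hgc => ?_⟩
  have hg : 3 • g ∈ P ⊓ a.ker ⊓ b.ker ⊓ c.ker := ⟨⟨⟨hmem g, hga⟩, hgb⟩, hgc⟩
  have key : ∀ Q : AddSubgroup G, 3 • g ∈ Q → Nat.card Q ≤ 1 → 3 • g = 0 := by
    intro Q hQ hc
    have hpos : 0 < Nat.card Q := Nat.card_pos
    have hQ1 : Q = ⊥ := AddSubgroup.card_eq_one.1 (by omega)
    rw [hQ1] at hQ
    exact (AddSubgroup.mem_bot).1 hQ
  rw [hPc] at h1
  rcases h2 with h2 | h2
  · rcases h3 with h3 | h3
    · exact key _ hg (by omega)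
    · rw [h3] at hg
      exact (AddSubgroup.mem_bot).1 hg.1
  · rw [h2] at hg
    exact (AddSubgroup.mem_bot).1 hg.1.1

end Pool.Agent.H38.T35
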