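import Pool.Agent.H38.T35.Key3
import Pool.Agent.H38.T35.Sep9
import Pool.Agent.H38.RX.KillsT
import Pool.Agent.H16.RB2.Bjs2

/-!
# T35 module Top: the top digit kills

Let `S = sl 3 f (3 • g0)`, `s x = gr f x - g0` (`3 • s x = 0` for `x ∈ S`) and `m x` a natural number, `m x = 1` or `m x = (l (gr f x)).val`.  Put `y = ∑ x ∈ S, m x • s x` and suppose `y ≠ 0`;
by `sep9` there is `a` with `a y ≠ 0`.
If `a (3 • g) = 0` for all `g`: `3 * a g = 0`, so `a g = 3 * (l' g).val` for a homomorphism `l' : G →+ ZMod 3`, and `a y = 3 * ∑ m x (l' (s x))` is `0` because the slices kill products of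
at most two functionals (`sl_kills2` with `n = 3`, `k = 3`, `r = 5`).
Otherwise take `b`, `c` from `three_homs` and apply `key3` with `J = Fin 3`, `![a, b, c]`, `w0 j = (a j g0).val`, `j0 = 0`, `Ls = []` or `[(l, 0)]` (`2 (3 * 2 + 5 + 3 * 1) = 28 < 30`): all three digits match
iff `3 • gr f x = 3 • g0`; then `a (gr f x)).val - (a g0).val = 3 k x`, `a (s x) = 3 k x` in `ZMod 9` and `tp = 1 - k x`, so `∑ x ∈ S, (1 - k x) m x = 0` in `ZMod 3`; with
`∑ x ∈ S, m x = 0` (`sl_kills2`) we get `∑ k x m x = 0` in `ZMod 3` and `a y = 0`.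
-/

set_option autoImplicit false

namespace Pool.Agent.H38.T35

open Finset Pool.Agent.H88.Pl Pool.Agent.H16.RB Pool.Agent.H16.RB2 Pool.Agent.H38.RX
open scoped Classical

variable {H K : Type*} [AddCommGroup H] [AddCommGroup K] [Fintype H] [Fintype K]

/-- the third of an element of `3 ZMod 9` -/
private def Top_phi (w : ZMod 9) : ZMod 3 := ((w.val / 3 : ℕ) : ZMod 3)

private theorem Top_phi_add : ∀ u v : ZMod 9, 3 • u = 0 → 3 • v = 0 →
    Top_phi (u + v) = Top_phi u + Top_phi v := by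
  unfold Top_phi
  decide

private theorem Top_phi_inj : ∀ u : ZMod 9, 3 • u = 0 → Top_phi u = 0 → u = 0 := by
  unfold Top_phi
  decide

private theorem Top_tp : ∀ u v : ZMod 9,
    ((tp 3 u.val v.val : ℤ) : ZMod 3) = if 3 • (u - v) = 0 then 1 - Top_phi (u - v) else 0 := by
  unfold Top_phi tp
  decide

private theorem Top_mod : ∀ u v : ZMod 9, (u.val ≡ v.val [MOD 3]) ↔ 3 • (u - v) = 0 := by
  unfold Nat.ModEq
  decide

private theorem Top_phi_nsmul (u : ZMod 9) (hu : 3 • u = 0) (n : ℕ) :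
    Top_phi (n • u) = n * Top_phi u := by
  induction n with
  | zero =>
    rw [zero_smul, Nat.cast_zero, zero_mul]
    decide
  | succ n ih =>
    have h1 : 3 • (n • u) = 0 := by rw [smul_comm, hu, smul_zero]
    rw [succ_nsmul, Top_phi_add _ _ h1 hu, ih]
    push_cast
    ring

private theorem Top_phi_sum {X : Type*} (S : Finset X) (n : X → ℕ) (u : X → ZMod 9)
    (hu : ∀ x ∈ S, 3 • u x = 0) :
    3 • (∑ x ∈ S, n x • u x) = 0 ∧
      Top_phi (∑ x ∈ S, n x • u x) = ∑ x ∈ S, (n x : ZMod 3) * Top_phi (u x) := by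
  induction S using Finset.induction_on with
  | empty =>
    rw [sum_empty, sum_empty]
    exact ⟨smul_zero _, by decide⟩
  | insert x S hx ih =>
    obtain ⟨h1, h2⟩ := ih fun y hy => hu y (mem_insert_of_mem hy)
    have h3 := hu x (mem_insert_self x S)
    have h4 : 3 • (n x • u x) = 0 := by rw [smul_comm, h3, smul_zero]
    rw [sum_insert hx, sum_insert hx]
    refine ⟨?_, ?_⟩
    · rw [smul_add, h4, h1, add_zero]
    · rw [Top_phi_add _ _ h4 h1, Top_phi_nsmul _ h3, h2]

/-- the main computation: the third of `a` of the sum vanishes -/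
private theorem Top_main (hH : Fintype.card H = 3 ^ 5) (hK : Fintype.card K = 3 ^ 5) (f : H → K)
    (hf : IsPlanar f) (h9 : ∀ g : H × K, 9 • g = 0)
    (hP : Nat.card (Set.range fun g : H × K => 3 • g) = 3 ^ 3) (g0 : H × K)
    (Ls : List ((H × K →+ ZMod 3) × ZMod 3)) (hLs : Ls.length ≤ 1) (a : H × K →+ ZMod 9) :
    ∑ x ∈ sl 3 f (3 • g0), (Ls.map fun l => l.1 (gr f x) - l.2).prod *
      Top_phi (a (gr f x - g0)) = 0 := by
  have : Fact (Nat.Prime 3) := ⟨Nat.prime_three⟩
  have hk : Kills 3 (gr f) (sl 3 f (3 • g0)) 3 :=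
    sl_kills2 (by norm_num) hH hK f hf hP (by norm_num) g0
  by_cases ha : ∀ g : H × K, a (3 • g) = 0
  · -- `a = 3 l'`
    have ha' : ∀ g : H × K, 3 • a g = 0 := fun g => by rw [← map_nsmul]; exact ha g
    let l' : H × K →+ ZMod 3 := AddMonoidHom.mk' (fun g => Top_phi (a g)) fun u v => by
      show Top_phi (a (u + v)) = Top_phi (a u) + Top_phi (a v)
      rw [map_add]
      exact Top_phi_add _ _ (ha' u) (ha' v)
    have h1 := hk ((l', l' g0) :: Ls) (by rw [List.length_cons]; omega)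
    refine Eq.trans (sum_congr rfl fun x _ => ?_) h1
    rw [List.map_cons, List.prod_cons, mul_comm]
    congr 1
    show l' (gr f x - g0) = l' (gr f x) - l' g0
    exact map_sub _ _ _
  · push Not at ha
    obtain ⟨b, c, hbc⟩ := three_homs h9 hP a ha
    have h1 := key3 (p := 3) (r := 5) (by norm_num) hH f hf (J := Fin 3) 0
      (![a, b, c] : Fin 3 → (H × K →+ ZMod 9))
      (fun j => ((![a, b, c] : Fin 3 → (H × K →+ ZMod 9)) j g0).val) Ls (by
        rw [Fintype.card_fin]
        omega)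
    have h2 : ∀ x : H, ((tp 3 ((![a, b, c] : Fin 3 → (H × K →+ ZMod 9)) 0 (gr f x)).val
        ((![a, b, c] : Fin 3 → (H × K →+ ZMod 9)) 0 g0).val *
        ∏ j ∈ (univ : Finset (Fin 3)).erase 0,
          (if ((![a, b, c] : Fin 3 → (H × K →+ ZMod 9)) j (gr f x)).val ≡
            ((![a, b, c] : Fin 3 → (H × K →+ ZMod 9)) j g0).val [MOD 3] then 1 else 0) : ℤ) :
            ZMod 3) = if x ∈ sl 3 f (3 • g0) then 1 - Top_phi (a (gr f x - g0)) else 0 := by
      intro x
      have e1 : (univ : Finset (Fin 3)).erase 0 = {1, 2} := by decide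
      have e2 : ∀ d : H × K →+ ZMod 9, ((d (gr f x)).val ≡ (d g0).val [MOD 3]) ↔
          d (3 • (gr f x - g0)) = 0 := by
        intro d
        rw [Top_mod, map_nsmul, map_sub]
      have e3 : x ∈ sl 3 f (3 • g0) ↔ 3 • (gr f x - g0) = 0 := by
        rw [sl, mem_filter, smul_sub, sub_eq_zero]
        exact ⟨fun h => h.2, fun h => ⟨mem_univ _, h⟩⟩
      rw [e1, prod_pair (by decide)]
      simp only [Matrix.cons_val_zero, Matrix.cons_val_one, Matrix.cons_val_two,
        Matrix.head_cons, Matrix.tail_cons, e2]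
      rw [Int.cast_mul, Top_tp, ← map_sub, ← map_nsmul]
      by_cases hx : 3 • (gr f x - g0) = 0
      · rw [if_pos (e3.2 hx), hx, map_zero, map_zero, map_zero, if_pos rfl, if_pos rfl]
        push_cast
        ring
      · rw [if_neg (mt e3.1 hx)]
        by_cases h3 : a (3 • (gr f x - g0)) = 0
        · rw [if_pos h3]
          by_cases h4 : b (3 • (gr f x - g0)) = 0
          · have h5 : ¬ c (3 • (gr f x - g0)) = 0 := fun h5 => hx (hbc _ h3 h4 h5)
            rw [if_neg h5, mul_zero, Int.cast_zero, mul_zero]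
          · rw [if_neg h4, zero_mul, Int.cast_zero, mul_zero]
        · rw [if_neg h3, zero_mul]
    have h3 : ∑ x ∈ sl 3 f (3 • g0), (1 - Top_phi (a (gr f x - g0))) *
        (Ls.map fun l => l.1 (gr f x) - l.2).prod = 0 := by
      have h5 : ∑ x : H, (if x ∈ sl 3 f (3 • g0) then 1 - Top_phi (a (gr f x - g0)) else 0) *
          (Ls.map fun l => l.1 (gr f x) - l.2).prod = 0 := by
        refine Eq.trans (sum_congr rfl fun x _ => ?_) h1
        rw [← h2 x]
        refine congrArg (fun t : ZMod 3 => t * (Ls.map fun l => l.1 (gr f x) - l.2).prod)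
          (congrArg Int.cast (congrArg _ (prod_congr (by ext j; simp only [mem_erase])
            fun j _ => ?_)))
        split_ifs <;> rfl
      simp only [ite_mul, zero_mul, sum_ite_mem, univ_inter] at h5
      exact h5
    have h4 := hk Ls (by omega)
    simp only [sub_mul, one_mul, sum_sub_distrib, h4, zero_sub, neg_eq_zero] at h3
    refine Eq.trans (sum_congr rfl fun x _ => ?_) h3
    rw [mul_comm]

/-- `Ls = []` gives `top0`, `Ls = [(l, 0)]` gives `top1` -/
theorem top_gen (hH : Fintype.card H = 3 ^ 5) (hK : Fintype.card K = 3 ^ 5) (f : H → K)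
    (hf : IsPlanar f) (h9 : ∀ g : H × K, 9 • g = 0)
    (hP : Nat.card (Set.range fun g : H × K => 3 • g) = 3 ^ 3) (g0 : H × K)
    (Ls : List ((H × K →+ ZMod 3) × ZMod 3)) (hLs : Ls.length ≤ 1) :
    ∑ x ∈ sl 3 f (3 • g0), (((Ls.map fun l => l.1 (gr f x) - l.2).prod : ZMod 3)).val •
      (gr f x - g0) = 0 := by
  by_contra hy
  obtain ⟨a, ha⟩ := sep9 h9 _ hy
  apply ha
  rw [map_sum]
  simp only [map_nsmul]
  have hs : ∀ x ∈ sl 3 f (3 • g0), 3 • a (gr f x - g0) = 0 := by
    intro x hx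
    rw [← map_nsmul, smul_sub, (mem_filter.1 hx).2, sub_self, map_zero]
  obtain ⟨h1, h2⟩ := Top_phi_sum (sl 3 f (3 • g0))
    (fun x => (((Ls.map fun l => l.1 (gr f x) - l.2).prod : ZMod 3)).val)
    (fun x => a (gr f x - g0)) hs
  refine Top_phi_inj _ h1 (h2.trans ?_)
  simp only [ZMod.natCast_zmod_val]
  exact Top_main hH hK f hf h9 hP g0 Ls hLs a

theorem sit (hH : Fintype.card H = 3 ^ 5) (hK : Fintype.card K = 3 ^ 5) (f : H → K)
    (hf : IsPlanar f) (h9 : ∀ g : H × K, 9 • g = 0)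
    (hP : Nat.card (Set.range fun g : H × K => 3 • g) = 3 ^ 3) : Sit f := by
  have : Fact (Nat.Prime 3) := ⟨Nat.prime_three⟩
  refine ⟨hH, hK, hf, h9, hP, ?_, ?_, ?_, ?_⟩
  · intro v hv
    obtain ⟨g, hg⟩ := (mem_filter.1 hv).2
    rw [← hg]
    exact sl_kills2 (by norm_num) hH hK f hf hP (by norm_num) g
  · intro v s hv hs h0
    obtain ⟨g, hg⟩ := (mem_filter.1 hv).2
    obtain ⟨g', hg'⟩ := (mem_filter.1 hs).2
    have hs0 : 3 • s = 0 := by rw [← hg', smul_smul]; exact h9 g'
    rw [line_set f hg hs0]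
    have hG : Nat.card (H × K) = 3 ^ (2 * 5) := by
      rw [Nat.card_prod, Nat.card_eq_fintype_card, Nat.card_eq_fintype_card, hH, hK, ← pow_add]
    have hT : Nat.card (AddSubgroup.zmultiples s) = 3 ^ 1 := by
      rw [pow_one, Nat.card_zmultiples]
      exact addOrderOf_eq_prime hs0 h0
    have hle : AddSubgroup.zmultiples s ≤ (nsmulAddMonoidHom (α := H × K) 3).range := by
      rw [AddSubgroup.zmultiples_le]
      exact ⟨g', hg'⟩
    have hc := (card_quot hG hP (AddSubgroup.zmultiples s) hle hT).2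
    have hc' : Nat.card (Set.range fun q : (H × K) ⧸ AddSubgroup.zmultiples s => 3 • q) =
        3 ^ 2 := by
      omega
    exact quot_kills (by norm_num) hH hK f hf _ hc' (by norm_num) g
  · intro g0
    have h := top_gen hH hK f hf h9 hP g0 [] (by simp)
    refine Eq.trans (sum_congr rfl fun x _ => ?_) h
    show gr f x - g0 = (1 : ℕ) • (gr f x - g0)
    exact (one_smul ℕ _).symm
  · intro g0 l
    have h := top_gen hH hK f hf h9 hP g0 [(l, 0)] (by simp)
    simpa using h

end Pool.Agent.H38.T35
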