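import Pool.Agent.H38.T35.CaseA
import Pool.Agent.H38.T35.CaseB
import Pool.Agent.H38.T35.Top
import Pool.Agent.H38.RX.Main

/-!
# T35 Main: Q1 for order 243 and the small orders
-/

set_option autoImplicit false

namespace Pool.Agent.H38.T35

open Finset Pool.Agent.H16.RB Pool.Agent.H88.Pl Pool.Agent.H16.RB2 Pool.Agent.H38.RX
open scoped Classical

variable {H K : Type*} [AddCommGroup H] [AddCommGroup K]

/-- Q1 for order 243 -/
theorem q1_243 (hH : Nat.card H = 3 ^ 5) (hK : Nat.card K = 3 ^ 5) (f : H → K)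
    (hf : IsPlanar f) (g : H × K) : 3 • g = 0 := by
  have hp3 : Fact (Nat.Prime 3) := ⟨Nat.prime_three⟩
  have : Finite H := Nat.finite_of_card_ne_zero (by rw [hH]; norm_num)
  have : Finite K := Nat.finite_of_card_ne_zero (by rw [hK]; norm_num)
  have := Fintype.ofFinite H
  have := Fintype.ofFinite K
  by_contra hg
  have hG : Nat.card (H × K) = 3 ^ (2 * 5) := by
    rw [Nat.card_prod, hH, hK, ← pow_add]
  obtain ⟨e, -, he⟩ := (Nat.dvd_prime_pow Nat.prime_three).1
    (show AddMonoid.exponent (H × K) ∣ 3 ^ (2 * 5) by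
      rw [← hG]; exact AddGroup.exponent_dvd_nat_card)
  have he2 : 2 ≤ e := by
    by_contra hlt
    apply hg
    have h1 : AddMonoid.exponent (H × K) ∣ 3 := by
      rw [he]
      calc 3 ^ e ∣ 3 ^ 1 := pow_dvd_pow 3 (by omega)
        _ = 3 := pow_one 3
    obtain ⟨c, hc⟩ := h1
    rw [hc, mul_comm, mul_smul, AddMonoid.exponent_nsmul_eq_zero, smul_zero]
  obtain ⟨κ, hκ⟩ := card_range_pow hG
  have hB := Pool.Agent.H38.PL3.main_C (show 3 ≤ 5 by omega) he2 hH hK f hf he
  have hsub : (Set.range fun g : H × K => 3 ^ (e - 1) • g) ⊆ Set.range fun g : H × K => 3 • g := by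
    rintro _ ⟨x, rfl⟩
    refine ⟨3 ^ (e - 2) • x, ?_⟩
    show 3 • (3 ^ (e - 2) • x) = 3 ^ (e - 1) • x
    rw [smul_smul, ← pow_succ']
    congr 2
    omega
  have hle := Nat.card_mono (Set.toFinite _) hsub
  have hκ3 : 3 ≤ κ := by
    rw [hκ] at hle
    exact (Nat.pow_le_pow_iff_right (by norm_num)).1 (hB.trans hle)
  have hrb := rank_C (by norm_num : (3 : ℕ) ≠ 2) hH hK f hf (by omega) hκ
  have hκ' : κ = 3 := by omega
  subst hκ'
  have heq : (Set.range fun g : H × K => 3 ^ (e - 1) • g) = Set.range fun g : H × K => 3 • g := by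
    refine Set.eq_of_subset_of_ncard_le hsub ?_ (Set.toFinite _)
    rw [← Nat.card_coe_set_eq, ← Nat.card_coe_set_eq, hκ]
    exact hB
  have h9 : ∀ g : H × K, 9 • g = 0 := by
    intro g
    obtain ⟨x, hx⟩ : 3 • g ∈ Set.range fun g : H × K => 3 ^ (e - 1) • g := by
      rw [heq]; exact ⟨g, rfl⟩
    have h1 : 9 • g = 3 • (3 • g) := by rw [smul_smul]; norm_num
    have hx' : 3 ^ (e - 1) • x = 3 • g := hx
    rw [h1, ← hx', smul_smul, ← pow_succ', show e - 1 + 1 = e by omega, ← he,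
      AddMonoid.exponent_nsmul_eq_zero]
  have E := sit (by rw [← Nat.card_eq_fintype_card, hH]) (by rw [← Nat.card_eq_fintype_card, hK])
    f hf h9 hκ
  rcases E.cards with ⟨h1, h2, h3, h4⟩ | ⟨h1, h2, h3, h4⟩
  · exact E.falseA h1 h2 h3 h4
  · exact E.falseB h3 h4

theorem small_orders3 {p r : ℕ} [Fact p.Prime]
    (h : r = 3 ∨ r = 4 ∨ r = 5 ∨ (7 ≤ p ∧ r = 6))
    (hH : Nat.card H = p ^ r) (hK : Nat.card K = p ^ r) (f : H → K) (hf : IsPlanar f) :
    Nonempty (H ≃+ (Fin r → ZMod p)) ∧ Nonempty (K ≃+ (Fin r → ZMod p)) := by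
  have hpp : p.Prime := Fact.out
  rcases h with h | h | h | h
  · exact small_orders2 (Or.inl h) hH hK f hf
  · exact small_orders2 (Or.inr (Or.inl h)) hH hK f hf
  · subst h
    by_cases hp5 : 5 ≤ p
    · exact small_orders2 (Or.inr (Or.inr (Or.inl ⟨hp5, rfl⟩))) hH hK f hf
    · have hp4 : p ≠ 4 := by rintro rfl; exact absurd hpp (by norm_num)
      have h2 := hpp.two_le
      rcases (show p = 2 ∨ p = 3 by omega) with rfl | rfl
      · exact (Pool.Agent.H38.PL3.no_two (by norm_num) hH hf).elim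
      · have h1 : ∀ g : H × K, 3 • g = 0 := fun g => q1_243 hH hK f hf g
        constructor
        · exact equiv_of_smul hH fun x => (Prod.ext_iff.1 (h1 (x, 0))).1
        · exact equiv_of_smul hK fun y => (Prod.ext_iff.1 (h1 (0, y))).2
  · exact small_orders2 (Or.inr (Or.inr (Or.inr h))) hH hK f hf

end Pool.Agent.H38.T35
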