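import Pool.Agent.H38.T35.Defs
import Pool.Agent.H16.RB.Rank

/-!
# T35 module Cards: cardinalities and sums over all pairs

`card_TZ`: `|3 A| |A[3]| = |A|` (kernel and range of `nsmulAddMonoidHom 3`).  `cards`: `3 G = 3 H × 3 K`, so `|3 H| |3 K| = 27`; `3 H ≤ H[3]` as `9 H = 0`, so `|3 H| ^ 2 ≤ 243`, `|3 H|` divides 27, so `|3 H| ≤ 9`; the same for `K`.
`sum_card`, `sum_sq'`, `sum_EE`, `sum_AA`: the slices over `PP` partition `H` (compare `Ext.sum1`, `Ext.sum2` in RX/Mom.lean); pairs `x ≠ x'` are counted by `pair_count`.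
For `sum_AA`: `3 • g = gr f x - gr f x' - d` with `3 • d = 0` gives `3 • gr f x = 3 • gr f x'` (`9 • g = 0`); the diagonal pairs contribute `243` if `d ∈ 3 G` and `0` otherwise.
`card_A`: `(h, k)` with `h ≠ 0`, `h ∈ 3 H`, `k ∈ d + 3 K`.
-/

set_option autoImplicit false

namespace Pool.Agent.H38.T35

open Finset Pool.Agent.H88.Pl Pool.Agent.H16.RB Pool.Agent.H38.RX
open scoped Classical

variable {H K : Type*} [AddCommGroup H] [AddCommGroup K] [Fintype H] [Fintype K]

theorem card_TZ (A : Type*) [AddCommGroup A] [Fintype A] :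
    (TT A).card * (ZZ A).card = Fintype.card A := by
  set φ : A →+ A := nsmulAddMonoidHom 3 with hφ
  have h1 : Nat.card φ.ker * φ.ker.index = Nat.card A := AddSubgroup.card_mul_index _
  have h2 : φ.ker.index = (TT A).card := by
    rw [AddSubgroup.index_ker, Nat.card_eq_fintype_card, Fintype.card_subtype]
    rfl
  have h3 : Nat.card φ.ker = (ZZ A).card := by
    rw [Nat.card_eq_fintype_card, Fintype.card_subtype]
    congr 1
    ext g
    simp [hφ, ZZ, AddMonoidHom.mem_ker, nsmulAddMonoidHom]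
  rw [h2, h3, Nat.card_eq_fintype_card] at h1
  rw [mul_comm]
  exact h1

theorem Sit.card_PP' {f : H → K} (E : Sit f) : (PP 3 H K).card = 27 := by
  have h : (PP 3 H K).card = 3 ^ 3 := by
    rw [← E.hP, Nat.card_eq_fintype_card, ← Set.toFinset_card]
    congr 1
    ext v
    rw [PP, mem_filter, Set.mem_toFinset]
    exact ⟨fun h => h.2, fun h => ⟨mem_univ _, h⟩⟩
  rw [h]
  norm_num

omit [AddCommGroup H] [AddCommGroup K] [Fintype H] [Fintype K] in
private theorem TT_sub (A : Type*) [AddCommGroup A] [Fintype A] (h9 : ∀ a : A, 9 • a = 0) :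
    (TT A).card ≤ (ZZ A).card := by
  apply card_le_card
  intro a ha
  rw [TT, mem_filter] at ha
  obtain ⟨b, rfl⟩ := ha.2
  rw [ZZ, mem_filter]
  refine ⟨mem_univ _, ?_⟩
  rw [smul_smul]
  exact h9 b

theorem Sit.cards {f : H → K} (E : Sit f) :
    ((TT H).card = 9 ∧ (ZZ H).card = 27 ∧ (TT K).card = 3 ∧ (ZZ K).card = 81) ∨
      ((TT H).card = 3 ∧ (ZZ H).card = 81 ∧ (TT K).card = 9 ∧ (ZZ K).card = 27) := by
  have h1 := card_TZ H
  have h2 := card_TZ K
  rw [E.hH] at h1
  rw [E.hK] at h2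
  have h3 : (TT H).card * (TT K).card = 27 := by
    rw [← E.card_PP', ← card_product]
    congr 1
    ext g
    rw [mem_product, TT, TT, PP, mem_filter, mem_filter, mem_filter]
    constructor
    · rintro ⟨⟨-, a, ha⟩, -, b, hb⟩
      exact ⟨mem_univ _, (a, b), Prod.ext ha hb⟩
    · rintro ⟨-, ⟨a, b⟩, hab⟩
      exact ⟨⟨mem_univ _, a, congrArg Prod.fst hab⟩, mem_univ _, b, congrArg Prod.snd hab⟩
  have h4 := TT_sub H fun a => congrArg Prod.fst (E.h9 (a, 0))
  have h5 := TT_sub K fun a => congrArg Prod.snd (E.h9 (0, a))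
  have h6 : (TT H).card ≤ 15 := by
    by_contra hc
    push Not at hc
    nlinarith
  have h7 : (TT K).card ≤ 15 := by
    by_contra hc
    push Not at hc
    nlinarith
  generalize (TT H).card = a at *
  generalize (TT K).card = b at *
  generalize (ZZ H).card = c at *
  generalize (ZZ K).card = d at *
  have hab : (a = 9 ∧ b = 3) ∨ (a = 3 ∧ b = 9) := by
    interval_cases a <;> omega
  rcases hab with ⟨rfl, rfl⟩ | ⟨rfl, rfl⟩
  · left
    omega
  · right
    omega

theorem Sit.card_PP {f : H → K} (E : Sit f) : (PP 3 H K).card = 27 := E.card_PP'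

private theorem card_lin {V : Type*} [AddCommGroup V] [Finite V] [Module (ZMod 3) V] :
    Nat.card (V →ₗ[ZMod 3] ZMod 3) = Nat.card V := by
  have : Fact (Nat.Prime 3) := ⟨Nat.prime_three⟩
  have : Module.Finite (ZMod 3) V := Module.Finite.of_finite
  have h1 := Module.natCard_eq_pow_finrank (K := ZMod 3) (V := V)
  have h2 := Module.natCard_eq_pow_finrank (K := ZMod 3) (V := V →ₗ[ZMod 3] ZMod 3)
  have h3 : Module.finrank (ZMod 3) (V →ₗ[ZMod 3] ZMod 3) = Module.finrank (ZMod 3) V :=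
    Subspace.dual_finrank_eq
  rw [h2, h3, ← h1]

private theorem card_hom (G : Type*) [AddCommGroup G] [Finite G] :
    Nat.card (G →+ ZMod 3) * Nat.card (nsmulAddMonoidHom (α := G) 3).range = Nat.card G := by
  have : Fact (Nat.Prime 3) := ⟨Nat.prime_three⟩
  let S : AddSubgroup G := (nsmulAddMonoidHom (α := G) 3).range
  have hS : ∀ x : G ⧸ S, 3 • x = 0 := by
    intro x
    induction x using QuotientAddGroup.induction_on with
    | H z =>
      rw [← QuotientAddGroup.mk_nsmul, QuotientAddGroup.eq_zero_iff]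
      exact ⟨z, rfl⟩
  let _ : Module (ZMod 3) (G ⧸ S) := AddCommGroup.zmodModule hS
  have h1 : Nat.card (G →+ ZMod 3) = Nat.card ((G ⧸ S) →ₗ[ZMod 3] ZMod 3) := by
    apply Nat.card_congr
    have hl : ∀ l : G →+ ZMod 3, S ≤ l.ker := by
      rintro l _ ⟨z, rfl⟩
      rw [AddMonoidHom.mem_ker]
      show l (3 • z) = 0
      rw [map_nsmul, nsmul_eq_mul]
      rw [ZMod.natCast_self, zero_mul]
    refine
      { toFun := fun l => (QuotientAddGroup.lift S l (hl l)).toZModLinearMap 3
        invFun := fun m => m.toAddMonoidHom.comp (QuotientAddGroup.mk' S)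
        left_inv := ?_
        right_inv := ?_ }
    · intro l
      ext g
      rfl
    · intro m
      ext g
      induction g using QuotientAddGroup.induction_on with
      | H z => rfl
  rw [h1, card_lin]
  have h2 := AddSubgroup.card_mul_index S
  rw [AddSubgroup.index_eq_card] at h2
  rw [mul_comm]
  exact h2

theorem Sit.card_dual {f : H → K} (E : Sit f) : Nat.card (H × K →+ ZMod 3) = 3 ^ 7 := by
  have h1 := card_hom (H × K)
  have h2 : Nat.card (nsmulAddMonoidHom (α := H × K) 3).range = 3 ^ 3 := by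
    rw [← E.hP]
    rfl
  have h3 : Nat.card (H × K) = 3 ^ 10 := by
    rw [Nat.card_prod, Nat.card_eq_fintype_card, Nat.card_eq_fintype_card, E.hH, E.hK]
    norm_num
  rw [h2, h3] at h1
  omega

private theorem mem_PP (f : H → K) (x : H) : 3 • gr f x ∈ PP 3 H K := by
  rw [PP, mem_filter]
  exact ⟨mem_univ _, _, rfl⟩

theorem Sit.sum_card {f : H → K} (E : Sit f) : ∑ v ∈ PP 3 H K, (sl 3 f v).card = 243 := by
  have h : Fintype.card H = 243 := by rw [E.hH]; norm_num
  rw [← h, ← card_univ]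
  exact (card_eq_sum_card_fiberwise (f := fun x => 3 • gr f x) (t := PP 3 H K)
    fun x _ => mem_PP f x).symm

/-- all pairs with `Q` of the difference -/
private theorem master {f : H → K} (E : Sit f) (Q : H × K → Prop) (hQ : ∀ g, Q g → 3 • g = 0) :
    ∑ v ∈ PP 3 H K, ((sl 3 f v ×ˢ sl 3 f v).filter fun z => Q (gr f z.1 - gr f z.2)).card +
      (univ.filter fun k : K => Q (0, k)).card =
      (if Q 0 then 243 else 0) + (univ.filter fun g : H × K => Q g).card := by
  have h1 : ∑ v ∈ PP 3 H K,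
      ((sl 3 f v ×ˢ sl 3 f v).filter fun z => Q (gr f z.1 - gr f z.2)).card =
      (univ.filter fun z : H × H => Q (gr f z.1 - gr f z.2)).card := by
    rw [card_eq_sum_card_fiberwise (f := fun z : H × H => 3 • gr f z.1) (t := PP 3 H K)
      fun z _ => mem_PP f z.1]
    refine sum_congr rfl fun v _ => ?_
    congr 1
    ext z
    rw [mem_filter, mem_filter, mem_filter, mem_product, sl, mem_filter, mem_filter]
    constructor
    · rintro ⟨⟨⟨_, h2⟩, _, h3⟩, h4⟩
      exact ⟨⟨mem_univ _, h4⟩, h2⟩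
    · rintro ⟨⟨_, h4⟩, h2⟩
      refine ⟨⟨⟨mem_univ _, h2⟩, mem_univ _, ?_⟩, h4⟩
      have h5 := hQ _ h4
      rw [smul_sub, sub_eq_zero] at h5
      rw [← h5]
      exact h2
  have h2 : (univ.filter fun z : H × H => Q (gr f z.1 - gr f z.2)).card =
      (if Q 0 then 243 else 0) +
        (univ.filter fun z : H × H => z.1 ≠ z.2 ∧ Q (gr f z.1 - gr f z.2)).card := by
    rw [← card_filter_add_card_filter_not (s := univ.filter fun z : H × H =>
      Q (gr f z.1 - gr f z.2)) (fun z : H × H => z.1 = z.2), filter_filter, filter_filter]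
    congr 1
    · have h3 : (univ.filter fun z : H × H => Q (gr f z.1 - gr f z.2) ∧ z.1 = z.2) =
          if Q 0 then univ.image (fun x : H => (x, x)) else ∅ := by
        ext z
        rw [mem_filter]
        split_ifs with h
        · rw [mem_image]
          constructor
          · rintro ⟨_, _, h4⟩
            exact ⟨z.1, mem_univ _, Prod.ext rfl h4⟩
          · rintro ⟨x, _, rfl⟩
            exact ⟨mem_univ _, by rw [sub_self]; exact h, rfl⟩
        · constructor
          · rintro ⟨_, h4, h5⟩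
            rw [h5, sub_self] at h4
            exact (h h4).elim
          · intro h4
            exact absurd h4 (notMem_empty _)
      rw [h3]
      split_ifs with h
      · rw [card_image_of_injective _ (fun a b hab => congrArg Prod.fst hab), card_univ, E.hH]
        norm_num
      · rfl
    · congr 1
      ext z
      rw [mem_filter, mem_filter]
      exact ⟨fun h => ⟨h.1, h.2.2, h.2.1⟩, fun h => ⟨h.1, h.2.2, h.2.1⟩⟩
  have h3 : (univ.filter fun z : H × H => z.1 ≠ z.2 ∧ Q (gr f z.1 - gr f z.2)).card =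
      (univ.filter fun g : H × K => g.1 ≠ 0 ∧ Q g).card := by
    convert pair_count f E.hf Q
  have h4 : (univ.filter fun g : H × K => g.1 ≠ 0 ∧ Q g).card +
      (univ.filter fun k : K => Q (0, k)).card = (univ.filter fun g : H × K => Q g).card := by
    rw [← card_filter_add_card_filter_not (s := univ.filter fun g : H × K => Q g)
      (fun g : H × K => g.1 = 0), filter_filter, filter_filter, add_comm]
    congr 1
    · refine card_bij (fun k _ => ((0 : H), k)) ?_ ?_ ?_
      · intro k hk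
        rw [mem_filter] at hk ⊢
        exact ⟨mem_univ _, hk.2, rfl⟩
      · intro a _ b _ h
        exact congrArg Prod.snd h
      · rintro ⟨h, k⟩ hg
        rw [mem_filter] at hg
        obtain ⟨_, h5, h6⟩ := hg
        have h7 : h = 0 := h6
        subst h7
        exact ⟨k, mem_filter.2 ⟨mem_univ _, h5⟩, rfl⟩
    · congr 1
      ext g
      rw [mem_filter, mem_filter]
      exact ⟨fun h => ⟨h.1, h.2.2, h.2.1⟩, fun h => ⟨h.1, h.2.2, h.2.1⟩⟩
  rw [h1, h2, h3, add_assoc, h4]

private theorem master' {f : H → K} (E : Sit f) (Q : H × K → Prop) (hQ : ∀ g, Q g → 3 • g = 0)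
    {N N' D : ℕ} {F : H × K → ℕ} (hN : ∃ s : Finset (H × K), s.card = N ∧ ∀ g, g ∈ s ↔ Q g)
    (hN' : ∃ s : Finset K, s.card = N' ∧ ∀ k, k ∈ s ↔ Q (0, k))
    (hF : ∀ v ∈ PP 3 H K, ∃ s : Finset (H × H), s.card = F v ∧
      ∀ z, z ∈ s ↔ z ∈ sl 3 f v ×ˢ sl 3 f v ∧ Q (gr f z.1 - gr f z.2))
    (hD : Q 0 → D = 243) (hD' : ¬ Q 0 → D = 0) :
    ∑ v ∈ PP 3 H K, F v + N' = D + N := by
  have h := master E Q hQ
  have h1 : (univ.filter fun g : H × K => Q g).card = N := by
    obtain ⟨s, hs, hs'⟩ := hN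
    rw [← hs]
    congr 1
    ext g
    rw [hs' g, mem_filter]
    exact ⟨fun h => h.2, fun h => ⟨mem_univ _, h⟩⟩
  have h2 : (univ.filter fun k : K => Q (0, k)).card = N' := by
    obtain ⟨s, hs, hs'⟩ := hN'
    rw [← hs]
    congr 1
    ext g
    rw [hs' g, mem_filter]
    exact ⟨fun h => h.2, fun h => ⟨mem_univ _, h⟩⟩
  have h3 : ∀ v ∈ PP 3 H K,
      ((sl 3 f v ×ˢ sl 3 f v).filter fun z => Q (gr f z.1 - gr f z.2)).card = F v := by
    intro v hv
    obtain ⟨s, hs, hs'⟩ := hF v hv
    rw [← hs]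
    congr 1
    ext z
    rw [hs' z, mem_filter]
  have h4 : (if Q 0 then 243 else 0) = D := by
    split_ifs with h
    · exact (hD h).symm
    · exact (hD' h).symm
  rw [h1, h2, sum_congr rfl h3, h4] at h
  exact h

private theorem card_G3 {f : H → K} (E : Sit f) :
    (univ.filter fun g : H × K => 3 • g = 0).card = 2187 := by
  have : Fact (Nat.Prime 3) := ⟨Nat.prime_three⟩
  have h := Rank.card_ker (p := 3) (r := 5) (κ := 3) E.hH E.hK E.hP
  omega

theorem Sit.sum_sq {f : H → K} (E : Sit f) :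
    ∑ v ∈ PP 3 H K, (sl 3 f v).card ^ 2 + (ZZ K).card = 2430 := by
  refine master' E (fun g => 3 • g = 0) (fun _ h => h) (N := 2187) (N' := (ZZ K).card) (D := 243)
    (F := fun v => (sl 3 f v).card ^ 2) ⟨_, card_G3 E, fun g => ?_⟩ ⟨_, rfl, fun k => ?_⟩
    (fun v _ => ⟨sl 3 f v ×ˢ sl 3 f v, ?_, fun z => ?_⟩) (fun _ => rfl)
    (fun h => (h (smul_zero _)).elim)
  · rw [mem_filter]
    exact ⟨fun h => h.2, fun h => ⟨mem_univ _, h⟩⟩
  · rw [ZZ, mem_filter]
    constructor
    · rintro ⟨_, h2⟩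
      exact Prod.ext (smul_zero 3) h2
    · intro h2
      exact ⟨mem_univ _, congrArg Prod.snd h2⟩
  · rw [card_product, sq]
  · constructor
    · intro hz
      refine ⟨hz, ?_⟩
      rw [mem_product, sl, mem_filter, mem_filter] at hz
      rw [smul_sub, hz.1.2, hz.2.2, sub_self]
    · exact fun h => h.1

private theorem card_Gl {f : H → K} (E : Sit f) (l : H × K →+ ZMod 3)
    (hl : ∃ g : H × K, 3 • g = 0 ∧ l g ≠ 0) :
    (univ.filter fun g : H × K => 3 • g = 0 ∧ l g = 0).card = 729 := by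
  have : Fact (Nat.Prime 3) := ⟨Nat.prime_three⟩
  obtain ⟨g0, hg0, hl0⟩ := hl
  have h1 : ∀ c : ZMod 3, ((univ.filter fun g : H × K => 3 • g = 0).filter
      fun g => l g = c).card = (univ.filter fun g : H × K => 3 • g = 0 ∧ l g = 0).card := by
    intro c
    set n : ℕ := (c * (l g0)⁻¹).val with hn
    have h2 : l (n • g0) = c := by
      rw [map_nsmul, nsmul_eq_mul, hn, ZMod.natCast_val, ZMod.cast_id, mul_assoc,
        inv_mul_cancel₀ hl0, mul_one]
    have h3 : 3 • (n • g0) = 0 := by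
      rw [smul_comm, hg0, smul_zero]
    rw [filter_filter]
    symm
    refine card_bij (fun g _ => g + n • g0) ?_ ?_ ?_
    · intro g hg
      rw [mem_filter] at hg ⊢
      refine ⟨mem_univ _, ?_, ?_⟩
      · rw [smul_add, hg.2.1, h3, add_zero]
      · rw [map_add, hg.2.2, h2, zero_add]
    · intro a _ b _ h
      exact add_right_cancel h
    · intro g hg
      rw [mem_filter] at hg
      refine ⟨g - n • g0, ?_, sub_add_cancel _ _⟩
      rw [mem_filter]
      refine ⟨mem_univ _, ?_, ?_⟩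
      · rw [smul_sub, hg.2.1, h3, sub_zero]
      · rw [map_sub, hg.2.2, h2, sub_self]
  have h2 := card_eq_sum_card_fiberwise (s := univ.filter fun g : H × K => 3 • g = 0)
    (f := fun g => l g) (t := (univ : Finset (ZMod 3))) (fun _ _ => mem_coe.2 (mem_univ _))
  rw [card_G3 E, sum_congr rfl (fun c _ => h1 c), sum_const, card_univ, ZMod.card, smul_eq_mul]
    at h2
  omega

/-- the ordered pairs on which `l` agrees, if `l` is not `0` on `G[3]` -/
theorem Sit.sum_EE {f : H → K} (E : Sit f) (l : H × K →+ ZMod 3)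
    (hl : ∃ g : H × K, 3 • g = 0 ∧ l g ≠ 0) :
    ∑ v ∈ PP 3 H K, EE f (sl 3 f v) l + ((ZZ K).filter fun k => l (0, k) = 0).card = 972 := by
  refine master' E (fun g => 3 • g = 0 ∧ l g = 0) (fun _ h => h.1) (N := 729) (D := 243)
    (F := fun v => EE f (sl 3 f v) l) ⟨_, card_Gl E l hl, fun g => ?_⟩ ⟨_, rfl, fun k => ?_⟩
    (fun v _ => ⟨_, rfl, fun z => ?_⟩) (fun _ => rfl)
    (fun h => (h ⟨smul_zero _, map_zero _⟩).elim)
  · rw [mem_filter]
    exact ⟨fun h => h.2, fun h => ⟨mem_univ _, h⟩⟩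
  · rw [mem_filter, ZZ, mem_filter]
    constructor
    · rintro ⟨⟨_, h2⟩, h3⟩
      exact ⟨Prod.ext (smul_zero 3) h2, h3⟩
    · rintro ⟨h2, h3⟩
      exact ⟨⟨mem_univ _, congrArg Prod.snd h2⟩, h3⟩
  · rw [mem_filter]
    constructor
    · rintro ⟨hz, h2⟩
      refine ⟨hz, ?_, ?_⟩
      · rw [mem_product, sl, mem_filter, mem_filter] at hz
        rw [smul_sub, hz.1.2, hz.2.2, sub_self]
      · rw [map_sub, h2, sub_self]
    · rintro ⟨hz, _, h2⟩
      rw [map_sub, sub_eq_zero] at h2
      exact ⟨hz, h2⟩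

/-- the two counts for `AA` -/
private theorem countA (H K : Type*) [AddCommGroup H] [AddCommGroup K] [Fintype H] [Fintype K]
    (d : K) :
    (univ.filter fun g : H × K => ∃ g' : H × K, 3 • g' = g - (0, d)).card = (PP 3 H K).card ∧
    (univ.filter fun k : K => ∃ g' : H × K, 3 • g' = ((0 : H), k) - (0, d)).card =
      (TT K).card := by
  constructor
  · refine card_bij (fun g _ => g - (0, d)) ?_ ?_ ?_
    · intro g hg
      rw [mem_filter] at hg
      rw [PP, mem_filter]
      exact ⟨mem_univ _, hg.2⟩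
    · intro a _ b _ h
      exact sub_left_injective h
    · intro g hg
      rw [PP, mem_filter] at hg
      refine ⟨g + (0, d), ?_, add_sub_cancel_right _ _⟩
      rw [mem_filter]
      exact ⟨mem_univ _, by rw [add_sub_cancel_right]; exact hg.2⟩
  · refine card_bij (fun k _ => k - d) ?_ ?_ ?_
    · intro k hk
      rw [mem_filter] at hk
      rw [TT, mem_filter]
      obtain ⟨_, g', hg'⟩ := hk
      exact ⟨mem_univ _, g'.2, congrArg Prod.snd hg'⟩
    · intro a _ b _ h
      exact sub_left_injective h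
    · intro k hk
      rw [TT, mem_filter] at hk
      obtain ⟨_, b, hb⟩ := hk
      refine ⟨k + d, ?_, add_sub_cancel_right _ _⟩
      rw [mem_filter]
      refine ⟨mem_univ _, (0, b), ?_⟩
      refine Prod.ext ?_ ?_
      · show 3 • (0 : H) = 0 - 0
        rw [smul_zero, sub_zero]
      · show 3 • b = k + d - d
        rw [add_sub_cancel_right, hb]

private theorem masterA {f : H → K} (E : Sit f) (d : K) (hd : 3 • d = 0) {D : ℕ}
    (hD : (∃ g' : H × K, 3 • g' = 0 - (0, d)) → D = 243)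
    (hD' : (¬ ∃ g' : H × K, 3 • g' = 0 - (0, d)) → D = 0) :
    ∑ v ∈ PP 3 H K, AA f (sl 3 f v) (0, d) + (TT K).card = D + 27 := by
  obtain ⟨h1, h2⟩ := countA H K d
  rw [E.card_PP] at h1
  refine master' E (fun g => ∃ g' : H × K, 3 • g' = g - (0, d)) (fun g hg => ?_) (N := 27)
    (F := fun v => AA f (sl 3 f v) (0, d)) ⟨_, h1, fun g => ?_⟩ ⟨_, h2, fun k => ?_⟩
    (fun v _ => ⟨_, rfl, fun z => ?_⟩) hD hD'
  · obtain ⟨g', hg'⟩ := hg
    have h1 : g = 3 • g' + (0, d) := by rw [hg', sub_add_cancel]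
    have h2 : (3 * 3) • g' = 0 := E.h9 g'
    rw [h1, smul_add, smul_smul, h2, zero_add]
    exact Prod.ext (smul_zero 3) hd
  · rw [mem_filter]
    exact ⟨fun h => h.2, fun h => ⟨mem_univ _, h⟩⟩
  · rw [mem_filter]
    exact ⟨fun h => h.2, fun h => ⟨mem_univ _, h⟩⟩
  · rw [mem_filter]

/-- collisions (diagonal included) -/
theorem Sit.sum_AA0 {f : H → K} (E : Sit f) :
    ∑ v ∈ PP 3 H K, AA f (sl 3 f v) 0 + (TT K).card = 243 + 27 := by
  refine masterA E 0 (smul_zero _) (fun _ => rfl) (fun h => (h ⟨0, ?_⟩).elim)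
  rw [smul_zero]
  exact (sub_self _).symm

/-- pairs with difference in `(0, d) + 3 G` -/
theorem Sit.sum_AA {f : H → K} (E : Sit f) {d : K} (hd : d ∈ ZZ K) (hd' : d ∉ TT K) :
    ∑ v ∈ PP 3 H K, AA f (sl 3 f v) (0, d) + (TT K).card = (TT H).card * (TT K).card := by
  have h := masterA E d (mem_filter.1 hd).2 (D := 0) (fun h => ?_) (fun _ => rfl)
  · rw [h, zero_add]
    rcases E.cards with ⟨h1, _, h2, _⟩ | ⟨h1, _, h2, _⟩ <;> rw [h1, h2]
  · obtain ⟨g', hg'⟩ := h
    exfalso
    apply hd'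
    rw [TT, mem_filter]
    refine ⟨mem_univ _, -g'.2, ?_⟩
    have h1 : 3 • g'.2 = 0 - d := congrArg Prod.snd hg'
    rw [smul_neg, h1, zero_sub, neg_neg]

end Pool.Agent.H38.T35
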