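import Pool.Agent.H38.T35.Defs

/-!
# T35 module Two: value counts of functionals on slices

`cn_dvd`: `∑ x ∈ S, (l x - (c + 1)) (l x - (c + 2)) = 2 (cn f S l c)` in `ZMod 3`.  `card_dvd`: the empty product.
`cap`: `3 • gr f x = v` and `gr f x + gr f y + gr f w = v` give `gr f x - gr f y = gr f w - gr f x`; planar functions have unique differences (see `pair_count`): `x = w`.
`no_two`: let `A` be the three points with `l = a`.  From `E.top0` and `E.top1`: `(a.val - b.val) • ∑ x ∈ A, (gr f x - g0) = 0` (integers) and `3 • ∑ … = 0`, so `∑ x ∈ A, (gr f x - g0) = 0`, i.e. the sum of the three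
points is `3 • g0 = v`: `cap`.  `ne_three`: `E.top0` and `cap`.
-/

set_option autoImplicit false

namespace Pool.Agent.H38.T35

open Finset Pool.Agent.H88.Pl Pool.Agent.H16.RB Pool.Agent.H38.RX
open scoped Classical

variable {H K : Type*} [AddCommGroup H] [AddCommGroup K] [Fintype H] [Fintype K]

theorem cn_dvd {f : H → K} {S : Finset H} (h : Kills 3 (gr f) S 3) (l : H × K →+ ZMod 3)
    (c : ZMod 3) : 3 ∣ cn f S l c := by
  have h1 := h [(l, c + 1), (l, c + 2)] (by simp)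
  have h2 : ∀ z c : ZMod 3, (z - (c + 1)) * ((z - (c + 2)) * 1) = if z = c then 2 else 0 := by
    decide
  simp only [List.map_cons, List.map_nil, List.prod_cons, List.prod_nil, h2] at h1
  rw [← Finset.sum_filter, Finset.sum_const, nsmul_eq_mul] at h1
  have h3 : ∀ z : ZMod 3, z * 2 = 0 → z = 0 := by decide
  exact (ZMod.natCast_eq_zero_iff _ _).1 (h3 _ h1)

theorem card_dvd {f : H → K} {S : Finset H} (h : Kills 3 (gr f) S 3) : 3 ∣ S.card := by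
  have h1 := h [] (by simp)
  simp only [List.map_nil, List.prod_nil, Finset.sum_const, nsmul_eq_mul, mul_one] at h1
  exact (ZMod.natCast_eq_zero_iff _ _).1 h1

private theorem Two_sum3 (g : ZMod 3 → ℕ) : ∑ c : ZMod 3, g c = g 0 + g 1 + g 2 := by
  have h : (Finset.univ : Finset (ZMod 3)) = {0, 1, 2} := by decide
  rw [h, Finset.sum_insert (by decide), Finset.sum_insert (by decide), Finset.sum_singleton,
    add_assoc]

theorem cn_sum (f : H → K) (S : Finset H) (l : H × K →+ ZMod 3) :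
    cn f S l 0 + cn f S l 1 + cn f S l 2 = S.card := by
  rw [← Two_sum3 (cn f S l)]
  exact (Finset.card_eq_sum_card_fiberwise (f := fun x => l (gr f x)) (t := Finset.univ)
    (fun x _ => Finset.mem_coe.2 (Finset.mem_univ _))).symm

/-- `EE` is the sum of the squares of the value counts -/
theorem EE_eq (f : H → K) (S : Finset H) (l : H × K →+ ZMod 3) :
    EE f S l = cn f S l 0 ^ 2 + cn f S l 1 ^ 2 + cn f S l 2 ^ 2 := by
  rw [← Two_sum3 (fun c => cn f S l c ^ 2)]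
  unfold EE
  rw [Finset.card_eq_sum_card_fiberwise (f := fun z : H × H => l (gr f z.1))
    (t := Finset.univ) (fun x _ => Finset.mem_coe.2 (Finset.mem_univ _))]
  apply Finset.sum_congr rfl
  intro c _
  unfold cn
  rw [sq, ← Finset.card_product]
  congr 1
  ext ⟨x, y⟩
  simp only [Finset.mem_filter, Finset.mem_product]
  constructor
  · rintro ⟨⟨⟨hx, hy⟩, h⟩, h'⟩
    exact ⟨⟨hx, h'⟩, hy, by rw [← h, h']⟩
  · rintro ⟨⟨hx, h⟩, hy, h'⟩
    exact ⟨⟨⟨hx, hy⟩, by rw [h, h']⟩, h⟩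

theorem cap {f : H → K} (hf : IsPlanar f) {x y w : H} (hxy : x ≠ y) (hxw : x ≠ w) :
    gr f x + gr f y + gr f w ≠ 3 • gr f x := by
  intro h
  have h1 : x + y + w = 3 • x := congrArg Prod.fst h
  have h2 : f x + f y + f w = 3 • f x := congrArg Prod.snd h
  have h3 : (x - y) + y = x := by abel
  have h4 : (x - y) + x = w := by
    have : w = 3 • x - x - y := by rw [← h1]; abel
    rw [this]
    abel
  have h5 : f w - f x = f x - f y := by
    have : f w = 3 • f x - f x - f y := by rw [← h2]; abel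
    rw [this]
    abel
  have h6 := (hf (x - y) (sub_ne_zero.2 hxy)).1
  have h7 : y = x := h6 (by
    show f ((x - y) + y) - f y = f ((x - y) + x) - f x
    rw [h3, h4, h5])
  exact hxy h7.symm

private theorem Two_three {f : H → K} (hf : IsPlanar f) {A : Finset H} (hA : A.card = 3)
    {v : H × K} (hv : ∀ x ∈ A, 3 • gr f x = v) : ∑ x ∈ A, gr f x ≠ v := by
  obtain ⟨x, y, w, hxy, hxw, hyw, rfl⟩ := Finset.card_eq_three.1 hA
  intro h
  rw [Finset.sum_insert (by simp [hxy, hxw]), Finset.sum_insert (by simp [hyw]),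
    Finset.sum_singleton, ← add_assoc, ← hv x (by simp)] at h
  exact cap hf hxy hxw h

private theorem Two_sl {f : H → K} {v : H × K} {x : H} (hx : x ∈ sl 3 f v) :
    3 • gr f x = v := by
  unfold sl at hx
  exact (Finset.mem_filter.1 hx).2

private theorem Two_PP {v : H × K} (hv : v ∈ PP 3 H K) : ∃ g : H × K, 3 • g = v := by
  unfold PP at hv
  exact (Finset.mem_filter.1 hv).2

theorem Sit.no_two {f : H → K} (E : Sit f) {v : H × K} (hv : v ∈ PP 3 H K)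
    (l : H × K →+ ZMod 3) {a b : ZMod 3} (hab : a ≠ b)
    (h : ∀ x ∈ sl 3 f v, l (gr f x) = a ∨ l (gr f x) = b) : cn f (sl 3 f v) l a ≠ 3 := by
  intro h3
  obtain ⟨g0, rfl⟩ := Two_PP hv
  set S := sl 3 f (3 • g0) with hS
  set A := S.filter (fun x => l (gr f x) = a) with hA
  have hA3 : A.card = 3 := h3
  have h4 := E.top0 g0
  have h5 := E.top1 g0 l
  rw [← hS] at h4 h5
  set D := ∑ x ∈ A, (gr f x - g0) with hD
  have h6 : ((a.val : ℤ) - b.val) • D = 0 := by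
    have h7 : ∑ x ∈ S, (((l (gr f x)).val : ℤ) - b.val) • (gr f x - g0) = 0 := by
      have h8 : ∀ x ∈ S, (((l (gr f x)).val : ℤ) - b.val) • (gr f x - g0) =
          (l (gr f x)).val • (gr f x - g0) - b.val • (gr f x - g0) := by
        intro x _
        rw [sub_smul, natCast_zsmul, natCast_zsmul]
      rw [Finset.sum_congr rfl h8, Finset.sum_sub_distrib, h5, ← Finset.smul_sum, h4, smul_zero,
        sub_zero]
    rw [hD, Finset.smul_sum, hA, Finset.sum_filter]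
    refine Eq.trans ?_ h7
    apply Finset.sum_congr rfl
    intro x hx
    split_ifs with h8
    · rw [h8]
    · rcases h x hx with h9 | h9
      · exact absurd h9 h8
      · rw [h9, sub_self, zero_smul]
  have h7 : (3 : ℤ) • D = 0 := by
    rw [hD, Finset.smul_sum]
    apply Finset.sum_eq_zero
    intro x hx
    have h8 : 3 • gr f x = 3 • g0 := Two_sl (Finset.mem_of_mem_filter x hx)
    have h9 : (3 : ℤ) • (gr f x - g0) = 3 • gr f x - 3 • g0 := by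
      rw [smul_sub, ofNat_zsmul, ofNat_zsmul]
    rw [h9, h8, sub_self]
  have h8 : ∀ a b : ZMod 3, a ≠ b → ((a.val : ℤ) - b.val = 1 ∨ (a.val : ℤ) - b.val = -1 ∨
      (a.val : ℤ) - b.val = 2 ∨ (a.val : ℤ) - b.val = -2) := by decide
  have h9 : D = 0 := by
    rcases h8 a b hab with h10 | h10 | h10 | h10 <;> rw [h10] at h6
    · rwa [one_smul] at h6
    · rwa [neg_smul, one_smul, neg_eq_zero] at h6
    · have : D = (3 : ℤ) • D - (2 : ℤ) • D := by rw [← sub_smul]; norm_num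
      rw [this, h6, h7, sub_zero]
    · have : D = (3 : ℤ) • D + (-2 : ℤ) • D := by rw [← add_smul]; norm_num
      rw [this, h6, h7, add_zero]
  rw [hD, Finset.sum_sub_distrib, Finset.sum_const, hA3, sub_eq_zero] at h9
  exact Two_three E.hf hA3 (fun x hx => Two_sl (Finset.mem_of_mem_filter x hx)) h9

theorem Sit.ne_three {f : H → K} (E : Sit f) {v : H × K} (hv : v ∈ PP 3 H K) :
    (sl 3 f v).card ≠ 3 := by
  intro h3
  obtain ⟨g0, rfl⟩ := Two_PP hv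
  have h4 := E.top0 g0
  rw [Finset.sum_sub_distrib, Finset.sum_const, h3, sub_eq_zero] at h4
  exact Two_three E.hf h3 (fun x hx => Two_sl hx) h4

private theorem Two_const {f : H → K} {S : Finset H} {l : H × K →+ ZMod 3} {c : ZMod 3}
    (h : cn f S l c = S.card) : ∀ x ∈ S, l (gr f x) = c := by
  unfold cn at h
  exact Finset.card_filter_eq_iff.1 h

private theorem Two_two {f : H → K} {S : Finset H} {l : H × K →+ ZMod 3} {a b c : ZMod 3}
    (h : cn f S l c = 0) (habc : ∀ z : ZMod 3, z = a ∨ z = b ∨ z = c) :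
    ∀ x ∈ S, l (gr f x) = a ∨ l (gr f x) = b := by
  intro x hx
  rcases habc (l (gr f x)) with h1 | h1 | h1
  · exact Or.inl h1
  · exact Or.inr h1
  · unfold cn at h
    rw [Finset.card_eq_zero, Finset.filter_eq_empty_iff] at h
    exact absurd h1 (h hx)

/-- the value counts divided by three -/
private theorem Sit.Two_k {f : H → K} (E : Sit f) {v : H × K} (hv : v ∈ PP 3 H K)
    (l : H × K →+ ZMod 3) : ∃ k0 k1 k2 : ℕ, cn f (sl 3 f v) l 0 = 3 * k0 ∧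
      cn f (sl 3 f v) l 1 = 3 * k1 ∧ cn f (sl 3 f v) l 2 = 3 * k2 ∧
      3 * k0 + 3 * k1 + 3 * k2 = (sl 3 f v).card := by
  obtain ⟨k0, h0⟩ := cn_dvd (E.kills hv) l 0
  obtain ⟨k1, h1⟩ := cn_dvd (E.kills hv) l 1
  obtain ⟨k2, h2⟩ := cn_dvd (E.kills hv) l 2
  refine ⟨k0, k1, k2, h0, h1, h2, ?_⟩
  rw [← cn_sum f (sl 3 f v) l, h0, h1, h2]

/-- no count is three if another one is zero -/
private theorem Sit.Two_no {f : H → K} (E : Sit f) {v : H × K} (hv : v ∈ PP 3 H K)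
    (l : H × K →+ ZMod 3) (a b c : ZMod 3) (hab : a ≠ b) (habc : ∀ z : ZMod 3, z = a ∨ z = b ∨ z = c)
    (hc : cn f (sl 3 f v) l c = 0) (ha : cn f (sl 3 f v) l a = 3) : False :=
  E.no_two hv l hab (Two_two hc habc) ha

private theorem Two_n9 (k0 k1 k2 : ℕ) (h : 3 * k0 + 3 * k1 + 3 * k2 = 9) :
    k0 = 3 ∨ k1 = 3 ∨ k2 = 3 ∨ (k0 = 1 ∧ k1 = 1 ∧ k2 = 1) ∨ (k2 = 0 ∧ k0 = 1) ∨
      (k1 = 0 ∧ k0 = 1) ∨ (k2 = 0 ∧ k1 = 1) ∨ (k0 = 0 ∧ k1 = 1) ∨ (k1 = 0 ∧ k2 = 1) ∨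
      (k0 = 0 ∧ k2 = 1) := by
  omega

private theorem Two_n6 (k0 k1 k2 : ℕ) (h : 3 * k0 + 3 * k1 + 3 * k2 = 6) :
    k0 = 2 ∨ k1 = 2 ∨ k2 = 2 ∨ (k2 = 0 ∧ k0 = 1) ∨ (k1 = 0 ∧ k0 = 1) ∨ (k0 = 0 ∧ k1 = 1) := by
  omega

private theorem Two_n12 (k0 k1 k2 : ℕ) (h : 3 * k0 + 3 * k1 + 3 * k2 = 12) :
    (k0 = 4 ∧ k1 = 0 ∧ k2 = 0) ∨ (k0 = 0 ∧ k1 = 4 ∧ k2 = 0) ∨
      (k0 = 0 ∧ k1 = 0 ∧ k2 = 4) ∨ (k0 = 2 ∧ k1 = 1 ∧ k2 = 1) ∨ (k0 = 1 ∧ k1 = 2 ∧ k2 = 1) ∨
      (k0 = 1 ∧ k1 = 1 ∧ k2 = 2) ∨ (k0 = 2 ∧ k1 = 2 ∧ k2 = 0) ∨ (k0 = 2 ∧ k1 = 0 ∧ k2 = 2) ∨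
      (k0 = 0 ∧ k1 = 2 ∧ k2 = 2) ∨ (k2 = 0 ∧ k0 = 1) ∨ (k1 = 0 ∧ k0 = 1) ∨ (k2 = 0 ∧ k1 = 1) ∨
      (k0 = 0 ∧ k1 = 1) ∨ (k1 = 0 ∧ k2 = 1) ∨ (k0 = 0 ∧ k2 = 1) := by
  have a0 : k0 ≤ 4 := by omega
  have a1 : k1 ≤ 4 := by omega
  have a2 : k2 = 4 - k0 - k1 := by omega
  subst a2
  interval_cases k0 <;> interval_cases k1 <;> first | decide | omega

/-- the value counts on slices of size at most 12: constant, or `(3,3,3)` (size 9), or `(6,6)`, `(6,3,3)` (size 12) -/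
theorem Sit.nine_cn {f : H → K} (E : Sit f) {v : H × K} (hv : v ∈ PP 3 H K)
    (hn : (sl 3 f v).card = 9) (l : H × K →+ ZMod 3) :
    (∃ c, ∀ x ∈ sl 3 f v, l (gr f x) = c) ∨ (∀ c, cn f (sl 3 f v) l c = 3) := by
  obtain ⟨k0, k1, k2, h0, h1, h2, h3⟩ := E.Two_k hv l
  have n01 := E.Two_no hv l 0 1 2 (by decide) (by decide)
  have n02 := E.Two_no hv l 0 2 1 (by decide) (by decide)
  have n10 := E.Two_no hv l 1 0 2 (by decide) (by decide)
  have n12 := E.Two_no hv l 1 2 0 (by decide) (by decide)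
  have n20 := E.Two_no hv l 2 0 1 (by decide) (by decide)
  have n21 := E.Two_no hv l 2 1 0 (by decide) (by decide)
  rw [hn] at h3
  rcases Two_n9 k0 k1 k2 h3 with rfl | rfl | rfl | ⟨rfl, rfl, rfl⟩ | ⟨rfl, rfl⟩ | ⟨rfl, rfl⟩ |
    ⟨rfl, rfl⟩ | ⟨rfl, rfl⟩ | ⟨rfl, rfl⟩ | ⟨rfl, rfl⟩
  · exact Or.inl ⟨0, Two_const (h0.trans hn.symm)⟩
  · exact Or.inl ⟨1, Two_const (h1.trans hn.symm)⟩
  · exact Or.inl ⟨2, Two_const (h2.trans hn.symm)⟩
  · right
    intro c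
    have hc : ∀ c : ZMod 3, c = 0 ∨ c = 1 ∨ c = 2 := by decide
    rcases hc c with rfl | rfl | rfl
    · exact h0
    · exact h1
    · exact h2
  · exact (n01 h2 h0).elim
  · exact (n02 h1 h0).elim
  · exact (n10 h2 h1).elim
  · exact (n12 h0 h1).elim
  · exact (n20 h1 h2).elim
  · exact (n21 h0 h2).elim

/-- on a slice of size 6 every functional is constant -/
theorem Sit.six_cn {f : H → K} (E : Sit f) {v : H × K} (hv : v ∈ PP 3 H K)
    (hn : (sl 3 f v).card = 6) (l : H × K →+ ZMod 3) : ∃ c, ∀ x ∈ sl 3 f v, l (gr f x) = c := by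
  obtain ⟨k0, k1, k2, h0, h1, h2, h3⟩ := E.Two_k hv l
  have n01 := E.Two_no hv l 0 1 2 (by decide) (by decide)
  have n02 := E.Two_no hv l 0 2 1 (by decide) (by decide)
  have n12 := E.Two_no hv l 1 2 0 (by decide) (by decide)
  rw [hn] at h3
  rcases Two_n6 k0 k1 k2 h3 with rfl | rfl | rfl | ⟨rfl, rfl⟩ | ⟨rfl, rfl⟩ | ⟨rfl, rfl⟩
  · exact ⟨0, Two_const (h0.trans hn.symm)⟩
  · exact ⟨1, Two_const (h1.trans hn.symm)⟩
  · exact ⟨2, Two_const (h2.trans hn.symm)⟩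
  · exact (n01 h2 h0).elim
  · exact (n02 h1 h0).elim
  · exact (n12 h0 h1).elim

/-- on a slice of size 12: constant (`EE = 144`), `(6,6)`, or `(6,3,3)` (`EE = 54`) -/
theorem Sit.twelve_cn {f : H → K} (E : Sit f) {v : H × K} (hv : v ∈ PP 3 H K)
    (hn : (sl 3 f v).card = 12) (l : H × K →+ ZMod 3) :
    EE f (sl 3 f v) l = 144 ∨ EE f (sl 3 f v) l = 54 ∨
      ∃ a b : ZMod 3, a ≠ b ∧ (∀ x ∈ sl 3 f v, l (gr f x) = a ∨ l (gr f x) = b) ∧
        cn f (sl 3 f v) l a = 6 ∧ cn f (sl 3 f v) l b = 6 := by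
  obtain ⟨k0, k1, k2, h0, h1, h2, h3⟩ := E.Two_k hv l
  have n01 := E.Two_no hv l 0 1 2 (by decide) (by decide)
  have n02 := E.Two_no hv l 0 2 1 (by decide) (by decide)
  have n10 := E.Two_no hv l 1 0 2 (by decide) (by decide)
  have n12 := E.Two_no hv l 1 2 0 (by decide) (by decide)
  have n20 := E.Two_no hv l 2 0 1 (by decide) (by decide)
  have n21 := E.Two_no hv l 2 1 0 (by decide) (by decide)
  rw [hn] at h3
  have hE : EE f (sl 3 f v) l = (3 * k0) ^ 2 + (3 * k1) ^ 2 + (3 * k2) ^ 2 := by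
    rw [EE_eq, h0, h1, h2]
  rcases Two_n12 k0 k1 k2 h3 with ⟨rfl, rfl, rfl⟩ | ⟨rfl, rfl, rfl⟩ | ⟨rfl, rfl, rfl⟩ |
    ⟨rfl, rfl, rfl⟩ | ⟨rfl, rfl, rfl⟩ | ⟨rfl, rfl, rfl⟩ | ⟨rfl, rfl, rfl⟩ | ⟨rfl, rfl, rfl⟩ |
    ⟨rfl, rfl, rfl⟩ | ⟨rfl, rfl⟩ | ⟨rfl, rfl⟩ | ⟨rfl, rfl⟩ | ⟨rfl, rfl⟩ | ⟨rfl, rfl⟩ | ⟨rfl, rfl⟩
  · exact Or.inl hE
  · exact Or.inl hE
  · exact Or.inl hE
  · exact Or.inr (Or.inl hE)
  · exact Or.inr (Or.inl hE)
  · exact Or.inr (Or.inl hE)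
  · exact Or.inr (Or.inr ⟨0, 1, by decide, Two_two h2 (by decide), h0, h1⟩)
  · exact Or.inr (Or.inr ⟨0, 2, by decide, Two_two h1 (by decide), h0, h2⟩)
  · exact Or.inr (Or.inr ⟨1, 2, by decide, Two_two h0 (by decide), h1, h2⟩)
  · exact (n01 h2 h0).elim
  · exact (n02 h1 h0).elim
  · exact (n10 h2 h1).elim
  · exact (n12 h0 h1).elim
  · exact (n20 h1 h2).elim
  · exact (n21 h0 h2).elim

end Pool.Agent.H38.T35
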