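import Pool.Agent.H38.T35.Two
import Pool.Agent.H38.T35.Cards

/-!
# T35 module Nine: differences in slices of size 9

`card_ker` (optional lemma): for `g ∉ 3 G` exactly a third of the `l : G →+ ZMod 3` vanish on `g` (`sep`; the evaluation `l ↦ l g` is a nonzero homomorphism to `ZMod 3`), for `g ∈ 3 G` all of them.
Let `S = sl 3 f v`, `|S| = 9`, `D = (G →+ ZMod 3)` (`card_dual`: 2187 elements), `Ψ ≤ D` the subgroup of the `l` that are constant on `S`.  Count the `(l, x, x')` with `x, x' ∈ S`, `l (gr f x - gr f x' - d) = 0`: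
for fixed `(x, x')`: `2187` if the difference is in `d + 3 G` and `729` otherwise, total `81 * 729 + 1458 * AA f S d`; for fixed `l`: `81` or `0` (as `l d = 0` or not) if `l ∈ Ψ`, and `27` otherwise (`nine_cn`).
So `54 * AA f S d + |Ψ| = 3 * |{l ∈ Ψ | l d = 0}|`, and the last set is `Ψ` or a third of `Ψ`: `27 * AA f S d = |Ψ|` or `0`.  For `d = 0`: `27 * AA f S 0 = |Ψ|`, `AA f S 0 ≥ 9` (diagonal), `|Ψ| ∣ 3 ^ 7`; so `9 ∣ AA f S 0 ` and `9 ∣ AA f S d`.
-/

set_option autoImplicit false

namespace Pool.Agent.H38.T35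

open Finset Pool.Agent.H88.Pl Pool.Agent.H16.RB Pool.Agent.H38.RX
open scoped Classical

variable {H K : Type*} [AddCommGroup H] [AddCommGroup K] [Fintype H] [Fintype K]

theorem hom_ker {D : Type*} [AddCommGroup D] [Finite D] (e : D →+ ZMod 3) :
    (∀ l, e l = 0) ∨ 3 * Nat.card e.ker = Nat.card D := by
  have h1 : Nat.card e.ker * e.ker.index = Nat.card D := AddSubgroup.card_mul_index _
  have h2 : e.ker.index = Nat.card e.range := AddSubgroup.index_ker e
  have h3 : Nat.card e.range ∣ 3 := by
    have := AddSubgroup.card_addSubgroup_dvd_card e.range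
    rwa [Nat.card_zmod] at this
  rcases (Nat.dvd_prime Nat.prime_three).1 h3 with h | h
  · left
    intro l
    have : Subsingleton e.range := (Nat.card_eq_one_iff_unique.1 h).1
    have h4 : (⟨e l, ⟨l, rfl⟩⟩ : e.range) = ⟨0, zero_mem _⟩ := Subsingleton.elim _ _
    exact congrArg Subtype.val h4
  · right
    rw [← h1, h2, h]
    ring

/-- the homomorphisms to `ZMod 3` that are constant on `S` -/
def cst {X G : Type*} [AddCommGroup G] (y : X → G) (S : Finset X) : AddSubgroup (G →+ ZMod 3) where
  carrier := {l | ∀ x ∈ S, ∀ x' ∈ S, l (y x) = l (y x')}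
  add_mem' {l l'} h h' x hx x' hx' := by
    rw [AddMonoidHom.add_apply, AddMonoidHom.add_apply, h x hx x' hx', h' x hx x' hx']
  zero_mem' := fun _ _ _ _ => rfl
  neg_mem' {l} h x hx x' hx' := by
    rw [AddMonoidHom.neg_apply, AddMonoidHom.neg_apply, h x hx x' hx']

theorem mem_cst {X G : Type*} [AddCommGroup G] {y : X → G} {S : Finset X} {l : G →+ ZMod 3} :
    l ∈ cst y S ↔ ∀ x ∈ S, ∀ x' ∈ S, l (y x) = l (y x') := Iff.rfl

/-- the number of pairs of `S` with difference in `d + 3 G` -/
noncomputable def prs {X G : Type*} [AddCommGroup G] (y : X → G) (S : Finset X) (d : G) : ℕ :=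
  ((S ×ˢ S).filter fun z => ∃ g : G, 3 • g = y z.1 - y z.2 - d).card

theorem card_eval {G : Type*} [AddCommGroup G] [Finite G] [Fintype (G →+ ZMod 3)]
    (hD : Nat.card (G →+ ZMod 3) = 3 ^ 7) (g : G) :
    (univ.filter fun l : G →+ ZMod 3 => l g = 0).card =
      729 + if ∃ h : G, 3 • h = g then 1458 else 0 := by
  split_ifs with hg
  · obtain ⟨h, rfl⟩ := hg
    have h1 : (univ.filter fun l : G →+ ZMod 3 => l (3 • h) = 0) = univ := by
      refine filter_true_of_mem fun l _ => ?_
      rw [map_nsmul, nsmul_eq_mul]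
      have : ((3 : ℕ) : ZMod 3) = 0 := by decide
      rw [this, zero_mul]
    rw [h1, card_univ, ← Nat.card_eq_fintype_card, hD]
    norm_num
  · let e : (G →+ ZMod 3) →+ ZMod 3 := AddMonoidHom.eval g
    rcases hom_ker e with h | h
    · exact absurd (sep g fun l => h l) hg
    · have h1 : (univ.filter fun l : G →+ ZMod 3 => l g = 0).card = Nat.card e.ker := by
        rw [Nat.card_eq_fintype_card, Fintype.card_subtype]
        congr 1
        ext l
        simp only [mem_filter, mem_univ, true_and, AddMonoidHom.mem_ker]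
        rfl
      rw [h1]
      rw [hD] at h
      omega

theorem prs_identity {X G : Type*} [AddCommGroup G] [Finite G]
    (hD : Nat.card (G →+ ZMod 3) = 3 ^ 7) (y : X → G) (S : Finset X) (hS : S.card = 9)
    (hcn : ∀ l : G →+ ZMod 3, (∃ c, ∀ x ∈ S, l (y x) = c) ∨
      ∀ c, (S.filter fun x => l (y x) = c).card = 3) (d : G) :
    27 * prs y S d = Nat.card (cst y S) ∨ (prs y S d = 0 ∧ ∃ l : G →+ ZMod 3, l d ≠ 0) := by
  have hfin : Finite (G →+ ZMod 3) := Nat.finite_of_card_ne_zero (by rw [hD]; norm_num)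
  have : Fintype (G →+ ZMod 3) := Fintype.ofFinite _
  obtain ⟨x0, hx0⟩ : S.Nonempty := card_pos.1 (by rw [hS]; norm_num)
  -- the two ways of counting
  have hsum : ∑ l : G →+ ZMod 3, ((S ×ˢ S).filter fun z => l (y z.1 - y z.2 - d) = 0).card =
      ∑ z ∈ S ×ˢ S, (univ.filter fun l : G →+ ZMod 3 => l (y z.1 - y z.2 - d) = 0).card := by
    simp only [card_filter]
    exact sum_comm
  have hL : ∑ z ∈ S ×ˢ S, (univ.filter fun l : G →+ ZMod 3 => l (y z.1 - y z.2 - d) = 0).card =
      81 * 729 + 1458 * prs y S d := by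
    simp only [card_eval hD]
    rw [sum_add_distrib, sum_const, card_product, hS, smul_eq_mul]
    unfold prs
    rw [card_filter, mul_sum]
    congr 1
    refine sum_congr rfl fun z _ => ?_
    split_ifs <;> norm_num
  have hR : ∀ l : G →+ ZMod 3, ((S ×ˢ S).filter fun z => l (y z.1 - y z.2 - d) = 0).card +
      (if l ∈ cst y S then 27 else 0) = 27 + if l ∈ cst y S ∧ l d = 0 then 81 else 0 := by
    intro l
    by_cases hl : l ∈ cst y S
    · rw [if_pos hl]
      have h0 : ∀ z ∈ S ×ˢ S, (l (y z.1 - y z.2 - d) = 0 ↔ l d = 0) := by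
        intro z hz
        rw [mem_product] at hz
        rw [map_sub, map_sub, mem_cst.1 hl _ hz.1 _ hz.2, sub_self, zero_sub, neg_eq_zero]
      rw [filter_congr h0]
      by_cases hd : l d = 0
      · rw [if_pos ⟨hl, hd⟩, filter_true_of_mem fun _ _ => hd, card_product, hS]
      · rw [if_neg fun h => hd h.2, filter_false_of_mem fun _ _ => hd, card_empty]
    · rw [if_neg hl, if_neg fun h => hl h.1]
      have hc : ∀ c, (S.filter fun x => l (y x) = c).card = 3 := by
        rcases hcn l with ⟨c, hc⟩ | hc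
        · exact absurd (mem_cst.2 fun x hx x' hx' => (hc x hx).trans (hc x' hx').symm) hl
        · exact hc
      have h1 : ((S ×ˢ S).filter fun z => l (y z.1 - y z.2 - d) = 0).card =
          ∑ x' ∈ S, (S.filter fun x => l (y x) = l (y x') + l d).card := by
        rw [card_filter, sum_product_right]
        refine sum_congr rfl fun x' _ => ?_
        rw [card_filter]
        refine sum_congr rfl fun x _ => ?_
        have h2 : l (y x - y x' - d) = 0 ↔ l (y x) = l (y x') + l d := by
          rw [map_sub, map_sub, sub_sub, sub_eq_zero]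
        simp only [h2]
      rw [h1, sum_congr rfl fun x' _ => hc _, sum_const, hS]
      norm_num
  have hR2 := sum_congr (rfl : (univ : Finset (G →+ ZMod 3)) = univ) fun l _ => hR l
  rw [sum_add_distrib, sum_add_distrib, hsum, hL, sum_const, card_univ, ← Nat.card_eq_fintype_card,
    hD, ← sum_filter, ← sum_filter, sum_const, sum_const] at hR2
  have hΨ : (univ.filter fun l : G →+ ZMod 3 => l ∈ cst y S).card = Nat.card (cst y S) := by
    rw [Nat.card_eq_fintype_card, Fintype.card_subtype]
  -- the evaluation at `d` on the constant homomorphisms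
  let e : cst y S →+ ZMod 3 := (AddMonoidHom.eval d).comp (cst y S).subtype
  have he : Nat.card e.ker = (univ.filter fun l : G →+ ZMod 3 => l ∈ cst y S ∧ l d = 0).card := by
    have h1 : (univ.filter fun l : G →+ ZMod 3 => l ∈ cst y S ∧ l d = 0).card =
        Nat.card {l : G →+ ZMod 3 // l ∈ cst y S ∧ l d = 0} := by
      rw [Nat.card_eq_fintype_card, Fintype.card_subtype]
    rw [h1]
    refine Nat.card_congr ⟨fun l => ⟨l.1.1, l.1.2, l.2⟩, fun l => ⟨⟨l.1, l.2.1⟩, l.2.2⟩,
      fun _ => rfl, fun _ => rfl⟩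
  rw [hΨ, ← he, smul_eq_mul, smul_eq_mul, smul_eq_mul] at hR2
  rcases hom_ker e with h | h
  · left
    have h2 : Nat.card e.ker = Nat.card (cst y S) := by
      have : e.ker = ⊤ := by
        ext l
        simp [AddMonoidHom.mem_ker, h l]
      rw [this]
      exact Nat.card_congr AddSubgroup.topEquiv.toEquiv
    rw [h2] at hR2
    omega
  · right
    refine ⟨by omega, ?_⟩
    by_contra hcon
    push Not at hcon
    have h2 : Nat.card e.ker = Nat.card (cst y S) := by
      have : e.ker = ⊤ := by
        ext l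
        have : e l = 0 := hcon l.1
        simp [AddMonoidHom.mem_ker, this]
      rw [this]
      exact Nat.card_congr AddSubgroup.topEquiv.toEquiv
    have h3 : 0 < Nat.card (cst y S) := Nat.card_pos
    omega

theorem nine_dvd_prs {X G : Type*} [AddCommGroup G] [Finite G]
    (hD : Nat.card (G →+ ZMod 3) = 3 ^ 7) (y : X → G) (S : Finset X) (hS : S.card = 9)
    (hcn : ∀ l : G →+ ZMod 3, (∃ c, ∀ x ∈ S, l (y x) = c) ∨
      ∀ c, (S.filter fun x => l (y x) = c).card = 3) (d : G) : 9 ∣ prs y S d := by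
  have hfin : Finite (G →+ ZMod 3) := Nat.finite_of_card_ne_zero (by rw [hD]; norm_num)
  have h0 : 27 * prs y S 0 = Nat.card (cst y S) := by
    rcases prs_identity hD y S hS hcn 0 with h | ⟨-, l, hl⟩
    · exact h
    · exact absurd (map_zero l) hl
  have h9 : 9 ≤ prs y S 0 := by
    unfold prs
    rw [← hS, ← diag_card]
    refine card_le_card fun z hz => ?_
    rw [mem_diag] at hz
    rw [mem_filter, mem_product]
    refine ⟨⟨hz.1, hz.2 ▸ hz.1⟩, 0, ?_⟩
    rw [hz.2, sub_self, sub_zero, smul_zero]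
  have hdvd : Nat.card (cst y S) ∣ 3 ^ 7 := by
    rw [← hD]
    exact AddSubgroup.card_addSubgroup_dvd_card _
  obtain ⟨j, hj, hj2⟩ := (Nat.dvd_prime_pow Nat.prime_three).1 hdvd
  have h90 : 9 ∣ prs y S 0 := by
    rw [hj2] at h0
    interval_cases j <;> omega
  rcases prs_identity hD y S hS hcn d with h | ⟨h, -⟩
  · have : prs y S d = prs y S 0 := by omega
    rw [this]
    exact h90
  · rw [h]
    exact dvd_zero _

theorem Sit.nine_AA {f : H → K} (E : Sit f) {v : H × K} (hv : v ∈ PP 3 H K)
    (hn : (sl 3 f v).card = 9) (d : H × K) : 9 ∣ AA f (sl 3 f v) d := by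
  have h := nine_dvd_prs E.card_dual (gr f) (sl 3 f v) hn
    (fun l => by
      rcases E.nine_cn hv hn l with h | h
      · exact Or.inl h
      · exact Or.inr fun c => h c) d
  unfold prs at h
  unfold AA
  convert h

end Pool.Agent.H38.T35
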