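import Pool.Agent.H38.T35.Sizes
import Pool.Agent.H38.T35.Nine

/-!
# T35 module CaseA: `|3 K| = 3`

`ZZ H` has 27 elements and `TT H` only 9: take `h ∈ ZZ H`, `h ∉ TT H` and (`sep`) `m : H →+ ZMod 3` with `m h ≠ 0`; `l = m.comp (AddMonoidHom.fst H K)` vanishes on all `(0, k)`.  `sum_EE`: `∑ EE = 972 - 81 = 891`; `sum_sq`: `∑ n ^ 2 = 2349`.
`v1` from `caseA`, `S = sl 3 f v1`; for the other `v`: `3 * EE = n ^ 2` or (size 9, `l` constant) `3 * EE = 243 = 162 + n ^ 2` (`nine_cn`, `EE_eq`); so `3 * EE f S l - 324 = 324 - 162 k`, `EE f S l = 216 - 54 k`.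
`EE f S l` is a sum of three squares of multiples of 3 with sum 18 (`cn_dvd`, `cn_sum`): it is not 216.  So `EE f S l ≤ 162`.
For `d ∈ ZZ K`, `d ∉ TT K` (78 elements): `sum_AA`: `∑ AA = 24`; `nine_AA`: `AA f S (0, d) ≡ 24` modulo 9, so it is at least 6.  Sum over `d`: at least 468.  A pair `z ∈ S ×ˢ S` is counted for the `d` with
`(gr f z.1 - gr f z.2).1 ∈ 3 H` and `(gr f z.1 - gr f z.2).2 - d ∈ 3 K`: at most `|3 K| = 3` times, and only if `z.1 ≠ z.2` (as `d ∉ 3 K`) and `l` agrees on `z`.  So `468 ≤ 3 (EE f S l - 18) ≤ 432`.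
-/

set_option autoImplicit false

namespace Pool.Agent.H38.T35

open Finset Pool.Agent.H88.Pl Pool.Agent.H16.RB Pool.Agent.H38.RX
open scoped Classical

variable {H K : Type*} [AddCommGroup H] [AddCommGroup K] [Fintype H] [Fintype K]

private lemma slice_nine {f : H → K} (E : Sit f) {v : H × K} (hv : v ∈ PP 3 H K)
    (h : (sl 3 f v).card = 0 ∨ (sl 3 f v).card = 9) (l : H × K →+ ZMod 3) :
    ∃ k : ℕ, 3 * EE f (sl 3 f v) l = (sl 3 f v).card ^ 2 + 162 * k := by
  rcases h with h0 | h9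
  · refine ⟨0, ?_⟩
    have hS : sl 3 f v = ∅ := Finset.card_eq_zero.1 h0
    rw [hS]
    simp [EE]
  · rcases E.nine_cn hv h9 l with ⟨c, hc⟩ | hc
    · refine ⟨1, ?_⟩
      have h1 : EE f (sl 3 f v) l = 81 := by
        unfold EE
        rw [filter_true_of_mem, card_product, h9]
        intro z hz
        rw [mem_product] at hz
        rw [hc _ hz.1, hc _ hz.2]
      rw [h1, h9]
      norm_num
    · refine ⟨0, ?_⟩
      rw [EE_eq, hc, hc, hc, h9]
      norm_num

theorem Sit.EE_le {f : H → K} (E : Sit f) (hT : (TT H).card = 9) (hZ : (ZZ H).card = 27)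
    (hZK : (ZZ K).card = 81) : ∃ m : H →+ ZMod 3, ∃ v1 ∈ PP 3 H K, (sl 3 f v1).card = 18 ∧
      (∀ v ∈ PP 3 H K, v ≠ v1 → (sl 3 f v).card = 0 ∨ (sl 3 f v).card = 9) ∧
      EE f (sl 3 f v1) (m.comp (AddMonoidHom.fst H K)) ≤ 162 := by
  have : Fact (Nat.Prime 3) := ⟨Nat.prime_three⟩
  obtain ⟨h, hhZ, hhT⟩ : ∃ h ∈ ZZ H, h ∉ TT H := by
    by_contra hcon
    push Not at hcon
    have := card_le_card (fun x hx => hcon x hx : ZZ H ⊆ TT H)
    omega
  have hh3 : 3 • h = 0 := (mem_filter.1 hhZ).2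
  obtain ⟨m, hm⟩ : ∃ m : H →+ ZMod 3, m h ≠ 0 := by
    by_contra hcon
    push Not at hcon
    exact hhT (mem_filter.2 ⟨mem_univ _, sep h hcon⟩)
  obtain ⟨v1, hv1, h18, hoth⟩ := E.caseA hZK
  refine ⟨m, v1, hv1, h18, hoth, ?_⟩
  set l : H × K →+ ZMod 3 := m.comp (AddMonoidHom.fst H K) with hl
  have hsum := E.sum_EE l ⟨(h, 0), by rw [Prod.smul_mk, hh3, smul_zero]; rfl, hm⟩
  have hfil : (ZZ K).filter (fun k => l (0, k) = 0) = ZZ K := by
    rw [filter_true_of_mem]
    intro k _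
    exact map_zero m
  rw [hfil, hZK] at hsum
  have hsq := E.sum_sq
  rw [hZK] at hsq
  have hk : ∀ v ∈ (PP 3 H K).erase v1, ∃ k : ℕ,
      3 * EE f (sl 3 f v) l = (sl 3 f v).card ^ 2 + 162 * k := fun v hv =>
    slice_nine E (mem_of_mem_erase hv) (hoth v (mem_of_mem_erase hv) (ne_of_mem_erase hv)) l
  choose! k hk using hk
  rw [← add_sum_erase _ _ hv1] at hsum hsq
  have h3 : 3 * ∑ v ∈ (PP 3 H K).erase v1, EE f (sl 3 f v) l =
      ∑ v ∈ (PP 3 H K).erase v1, (sl 3 f v).card ^ 2 +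
        162 * ∑ v ∈ (PP 3 H K).erase v1, k v := by
    rw [mul_sum, mul_sum, ← sum_add_distrib]
    exact sum_congr rfl hk
  rw [h18] at hsq
  have h4 : EE f (sl 3 f v1) l + 54 * ∑ v ∈ (PP 3 H K).erase v1, k v = 216 := by omega
  by_contra hcon
  have h5 : EE f (sl 3 f v1) l = 216 := by omega
  have hkill := E.kills hv1
  obtain ⟨d0, hd0⟩ := cn_dvd hkill l 0
  obtain ⟨d1, hd1⟩ := cn_dvd hkill l 1
  obtain ⟨d2, hd2⟩ := cn_dvd hkill l 2
  have h6 := cn_sum f (sl 3 f v1) l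
  rw [EE_eq] at h5
  rw [hd0, hd1, hd2] at h5 h6
  rw [h18] at h6
  have b0 : d0 ≤ 6 := by omega
  have b1 : d1 ≤ 6 := by omega
  have h7 : d2 = 6 - d0 - d1 := by omega
  have h8 : d0 + d1 ≤ 6 := by omega
  subst h7
  interval_cases d0 <;> interval_cases d1 <;> omega

theorem Sit.falseA {f : H → K} (E : Sit f) (hT : (TT H).card = 9) (hZ : (ZZ H).card = 27)
    (hTK : (TT K).card = 3) (hZK : (ZZ K).card = 81) : False := by
  obtain ⟨m, v1, hv1, h18, hoth, hEE⟩ := E.EE_le hT hZ hZK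
  set S := sl 3 f v1 with hS
  set l : H × K →+ ZMod 3 := m.comp (AddMonoidHom.fst H K) with hl
  obtain ⟨D, hD⟩ : ∃ D, D = ZZ K \ TT K := ⟨_, rfl⟩
  have hsub : TT K ⊆ ZZ K := by
    intro k hk
    obtain ⟨b, hb⟩ := (mem_filter.1 hk).2
    refine mem_filter.2 ⟨mem_univ _, ?_⟩
    have h1 := congrArg Prod.snd (E.h9 (0, b))
    have h2 : 9 • b = 0 := h1
    rw [← hb, smul_smul]
    exact h2
  have hDc : D.card = 78 := by
    rw [hD, card_sdiff_of_subset hsub, hZK, hTK]
  have hlow : ∀ d ∈ D, 6 ≤ AA f S (0, d) := by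
    intro d hd
    rw [hD, mem_sdiff] at hd
    have h1 := E.sum_AA hd.1 hd.2
    rw [hT, hTK, ← add_sum_erase _ _ hv1] at h1
    have h2 : 9 ∣ ∑ v ∈ (PP 3 H K).erase v1, AA f (sl 3 f v) (0, d) := by
      refine dvd_sum fun v hv => ?_
      have hv' := mem_of_mem_erase hv
      rcases hoth v hv' (ne_of_mem_erase hv) with h0 | h9
      · have h3 : sl 3 f v = ∅ := Finset.card_eq_zero.1 h0
        rw [h3]
        simp [AA]
      · exact E.nine_AA hv' h9 _
    rw [← hS] at h1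
    obtain ⟨q, hq⟩ := h2
    rw [hq] at h1
    omega
  have hlow2 : 468 ≤ ∑ d ∈ D, AA f S (0, d) := by
    calc 468 = D.card • 6 := by rw [hDc]; rfl
      _ ≤ _ := card_nsmul_le_sum _ _ _ hlow
  have hup : ∑ d ∈ D, AA f S (0, d) = ∑ z ∈ S ×ˢ S,
      (D.filter fun d => ∃ g : H × K, 3 • g = gr f z.1 - gr f z.2 - (0, d)).card := by
    simp only [AA, card_filter]
    exact sum_comm
  have hz : ∀ z ∈ S ×ˢ S,
      (D.filter fun d => ∃ g : H × K, 3 • g = gr f z.1 - gr f z.2 - (0, d)).card ≤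
        if z.1 ≠ z.2 ∧ l (gr f z.1) = l (gr f z.2) then 3 else 0 := by
    intro z _
    by_cases hne : (D.filter fun d => ∃ g : H × K, 3 • g = gr f z.1 - gr f z.2 - (0, d)).Nonempty
    · obtain ⟨d, hd⟩ := hne
      rw [mem_filter, hD, mem_sdiff] at hd
      obtain ⟨⟨hd1, hd2⟩, g, hg⟩ := hd
      have hg1 : 3 • g.1 = z.1 - z.2 := by
        have := congrArg Prod.fst hg
        simpa [gr] using this
      have hne' : z.1 ≠ z.2 := by
        intro heq
        apply hd2
        have h2 := congrArg Prod.snd hg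
        have h3 : 3 • g.2 = - d := by
          simpa [gr, heq] using h2
        refine mem_filter.2 ⟨mem_univ _, -g.2, ?_⟩
        rw [smul_neg, h3, neg_neg]
      have hlz : l (gr f z.1) = l (gr f z.2) := by
        have h3 : m (3 • g.1) = 0 := by
          rw [map_nsmul, nsmul_eq_mul]
          have h4 : ((3 : ℕ) : ZMod 3) = 0 := by decide
          rw [h4, zero_mul]
        rw [hg1, map_sub, sub_eq_zero] at h3
        exact h3
      rw [if_pos ⟨hne', hlz⟩]
      refine (card_le_card_of_injOn (t := TT K) (fun d => f z.1 - f z.2 - d) ?_ ?_).trans_eq hTK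
      · intro d hd
        rw [mem_coe, mem_filter] at hd
        obtain ⟨g, hg⟩ := hd.2
        rw [mem_coe]
        refine mem_filter.2 ⟨mem_univ _, g.2, ?_⟩
        have h2 := congrArg Prod.snd hg
        simpa [gr] using h2
      · intro d _ d' _ h
        exact sub_right_injective h
    · rw [not_nonempty_iff_eq_empty] at hne
      rw [hne, card_empty]
      exact Nat.zero_le _
  have hsum := sum_le_sum hz
  rw [← hup, ← sum_filter, sum_const, smul_eq_mul] at hsum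
  have hdiag : ((S ×ˢ S).filter fun z => z.1 ≠ z.2 ∧ l (gr f z.1) = l (gr f z.2)).card + S.card ≤
      EE f S l := by
    have h1 : (S.image fun x => (x, x)).card = S.card :=
      card_image_of_injective _ fun x y h => (Prod.ext_iff.1 h).1
    rw [← h1, ← card_union_of_disjoint]
    · refine card_le_card fun z hz => ?_
      rw [mem_union] at hz
      rcases hz with hz | hz
      · rw [mem_filter] at hz ⊢
        exact ⟨hz.1, hz.2.2⟩
      · obtain ⟨x, hx, rfl⟩ := mem_image.1 hz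
        rw [mem_filter]
        exact ⟨mem_product.2 ⟨hx, hx⟩, rfl⟩
    · rw [disjoint_left]
      intro z hz hz'
      obtain ⟨x, hx, rfl⟩ := mem_image.1 hz'
      exact (mem_filter.1 hz).2.1 rfl
  omega

end Pool.Agent.H38.T35
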