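import Pool.Agent.H38.T35.Sizes

/-!
# T35 module Cub: every slice kills products of three functionals (case B)

`nine_cub`: `∑ x ∈ S, l x ^ 2 * l' x = ∑ x ∈ S, l' x - ∑_{l x = 0} l' x` (as `l ^ 2 = 1 - [l = 0]` in `ZMod 3`), the first sum is 0 (`kills`).  If `l` is constant: `c ^ 2 * 0`.  Otherwise `{l = 0}` has 3 points (`nine_cn`).
If one of `l'`, `l' + l`, `l' - l` is constant on `S`, `l'` is constant on `{l = 0}`: the sum is `3 c = 0`.  Otherwise all of them are `(3,3,3)`; for each `c` the number `m` of points with `l = 0`, `l' = c` satisfies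
`3 + 3 + 3 + 3 = 9 + 3 m` (the four lines `l = 0`, `l' = c`, `l' + l = c`, `l' - l = c` cover every point of `S` once and the points with `l = 0`, `l' = c` four times), so `m = 1` and the sum is `0 + 1 + 2 = 0`.
`cub`: for a slice of size 12 take `s ∈ PP`, `s ≠ 0` such that `v + s` and `v + 2 • s` have no slice of size 12 (at most 2 · 5 of the 26 `s` are bad: `s = ±(w - v)` for the other five `w`); `E.line` with the list `[(l, 0), (l, 0), (l', 0)]`.
-/

set_option autoImplicit false

namespace Pool.Agent.H38.T35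

open Finset Pool.Agent.H88.Pl Pool.Agent.H16.RB Pool.Agent.H38.RX
open scoped Classical

variable {H K : Type*} [AddCommGroup H] [AddCommGroup K] [Fintype H] [Fintype K]

private theorem Cub_four : ∀ a b c : ZMod 3, (if a = 0 then 1 else 0) + (if b = c then 1 else 0) +
    (if b + a = c then 1 else 0) + (if b - a = c then 1 else 0) =
      1 + 3 * (if a = 0 ∧ b = c then 1 else 0) := by
  decide

private theorem Cub_sq : ∀ a b : ZMod 3, a * a * b = b - (if a = 0 then b else 0) := by
  decide

private theorem Cub_val : ∀ a b : ZMod 3, (if a = 0 then b else 0) =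
    (if a = 0 ∧ b = 1 then 1 else 0) + 2 * (if a = 0 ∧ b = 2 then 1 else 0) := by
  decide

private theorem Cub_three (c : ZMod 3) : ((3 : ℕ) : ZMod 3) * c = 0 := by
  revert c
  decide

theorem Sit.nine_cub {f : H → K} (E : Sit f) {v : H × K} (hv : v ∈ PP 3 H K)
    (hn : (sl 3 f v).card = 9) (l l' : H × K →+ ZMod 3) :
    ∑ x ∈ sl 3 f v, l (gr f x) * l (gr f x) * l' (gr f x) = 0 := by
  have hk := E.kills hv
  have h1 : ∑ x ∈ sl 3 f v, l' (gr f x) = 0 := by
    have := hk [(l', 0)] (by simp)
    simpa using this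
  rcases E.nine_cn hv hn l with ⟨c, hc⟩ | h3
  · rw [Finset.sum_congr rfl (fun x hx => by rw [hc x hx]), ← Finset.mul_sum, h1, mul_zero]
  · rw [Finset.sum_congr rfl (fun x _ => Cub_sq _ _), Finset.sum_sub_distrib, h1, zero_sub,
      neg_eq_zero]
    -- the sum over `l = 0`
    have hconst : ∀ c : ZMod 3, (∀ x ∈ sl 3 f v, l (gr f x) = 0 → l' (gr f x) = c) →
        ∑ x ∈ sl 3 f v, (if l (gr f x) = 0 then l' (gr f x) else 0) = 0 := by
      intro c hc
      rw [← Finset.sum_filter]
      rw [Finset.sum_congr rfl (fun x hx => hc x (mem_filter.1 hx).1 (mem_filter.1 hx).2),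
        Finset.sum_const, nsmul_eq_mul]
      have h4 := h3 0
      unfold cn at h4
      rw [h4]
      exact Cub_three c
    rcases E.nine_cn hv hn l' with ⟨c, hc⟩ | h4
    · exact hconst c (fun x hx _ => hc x hx)
    rcases E.nine_cn hv hn (l' + l) with ⟨c, hc⟩ | h5
    · refine hconst c (fun x hx h0 => ?_)
      have := hc x hx
      rwa [AddMonoidHom.add_apply, h0, add_zero] at this
    rcases E.nine_cn hv hn (l' - l) with ⟨c, hc⟩ | h6
    · refine hconst c (fun x hx h0 => ?_)
      have := hc x hx
      rwa [AddMonoidHom.sub_apply, h0, sub_zero] at this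
    have hm : ∀ c : ZMod 3, ((sl 3 f v).filter fun x => l (gr f x) = 0 ∧ l' (gr f x) = c).card = 1 := by
      intro c
      have h7 := h3 0
      have h8 := h4 c
      have h9 := h5 c
      have h10 := h6 c
      unfold cn at h7 h8 h9 h10
      rw [Finset.card_filter] at h7 h8 h9 h10
      rw [Finset.card_filter]
      have h11 : ∑ x ∈ sl 3 f v, ((if l (gr f x) = 0 then 1 else 0) +
          (if l' (gr f x) = c then 1 else 0) + (if (l' + l) (gr f x) = c then 1 else 0) +
          (if (l' - l) (gr f x) = c then 1 else 0)) =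
          ∑ x ∈ sl 3 f v, (1 + 3 * (if l (gr f x) = 0 ∧ l' (gr f x) = c then 1 else 0)) := by
        refine Finset.sum_congr rfl fun x _ => ?_
        rw [AddMonoidHom.add_apply, AddMonoidHom.sub_apply]
        exact Cub_four _ _ _
      rw [Finset.sum_add_distrib, Finset.sum_add_distrib, Finset.sum_add_distrib, h7, h8, h9, h10,
        Finset.sum_add_distrib, ← Finset.mul_sum, Finset.sum_const, hn] at h11
      simp only [smul_eq_mul, mul_one] at h11
      omega
    rw [Finset.sum_congr rfl (fun x _ => Cub_val _ _), Finset.sum_add_distrib, ← Finset.mul_sum]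
    have h12 : ∀ c : ZMod 3, ∑ x ∈ sl 3 f v,
        (if l (gr f x) = 0 ∧ l' (gr f x) = c then (1 : ZMod 3) else 0) = 1 := by
      intro c
      rw [Finset.sum_boole, hm c]
      rfl
    rw [h12, h12]
    decide

omit [Fintype H] [Fintype K] in
private theorem Cub_prod {X : Type*} (S : Finset X) (y : X → H × K) (l l' : H × K →+ ZMod 3)
    {n : ℕ} (hn : 3 < n) (h : Kills 3 y S n) : ∑ x ∈ S, l (y x) * l (y x) * l' (y x) = 0 := by
  have := h [(l, 0), (l, 0), (l', 0)] (by simpa using hn)
  simpa [mul_assoc] using this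

theorem Sit.cub {f : H → K} (E : Sit f) (h : (ZZ K).card = 27) {v : H × K}
    (hv : v ∈ PP 3 H K) (l l' : H × K →+ ZMod 3) :
    ∑ x ∈ sl 3 f v, l (gr f x) * l (gr f x) * l' (gr f x) = 0 := by
  obtain ⟨hc, h6⟩ := E.caseB h
  have hmem : ∀ w : H × K, w ∈ PP 3 H K ↔ ∃ g : H × K, 3 • g = w := by
    intro w
    unfold PP
    rw [mem_filter]
    exact ⟨fun h => h.2, fun h => ⟨mem_univ _, h⟩⟩
  have h3 : ∀ s ∈ PP 3 H K, 3 • s = 0 := by
    intro s hs
    obtain ⟨g, rfl⟩ := (hmem s).1 hs
    rw [smul_smul]
    exact E.h9 g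
  have hadd : ∀ a ∈ PP 3 H K, ∀ b ∈ PP 3 H K, a + b ∈ PP 3 H K := by
    intro a ha b hb
    obtain ⟨g, rfl⟩ := (hmem a).1 ha
    obtain ⟨g', rfl⟩ := (hmem b).1 hb
    exact (hmem _).2 ⟨g + g', by rw [smul_add]⟩
  -- small slices
  have hsmall : ∀ w ∈ PP 3 H K, (sl 3 f w).card ≠ 12 →
      ∑ x ∈ sl 3 f w, l (gr f x) * l (gr f x) * l' (gr f x) = 0 := by
    intro w hw hw12
    rcases hc w hw with h0 | h9 | h12
    · rw [Finset.card_eq_zero.1 h0, Finset.sum_empty]
    · exact E.nine_cub hw h9 l l'
    · exact absurd h12 hw12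
  by_cases hv12 : (sl 3 f v).card = 12
  swap
  · exact hsmall v hv hv12
  set T : Finset (H × K) := (PP 3 H K).filter fun w => (sl 3 f w).card = 12 with hT
  have hvT : v ∈ T := by
    rw [hT, mem_filter]
    exact ⟨hv, hv12⟩
  set Bad : Finset (H × K) := insert 0 (((T.erase v).image fun w => w - v) ∪
    ((T.erase v).image fun w => v - w)) with hBad
  have hcard : Bad.card ≤ 11 := by
    have h1 : (T.erase v).card = 5 := by
      rw [Finset.card_erase_of_mem hvT, h6]
    have h2 := Finset.card_insert_le (0 : H × K) (((T.erase v).image fun w => w - v) ∪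
      ((T.erase v).image fun w => v - w))
    have h4 := Finset.card_union_le ((T.erase v).image fun w => w - v)
      ((T.erase v).image fun w => v - w)
    have h5 : ((T.erase v).image fun w => w - v).card ≤ 5 := h1 ▸ Finset.card_image_le
    have h7 : ((T.erase v).image fun w => v - w).card ≤ 5 := h1 ▸ Finset.card_image_le
    rw [hBad]
    omega
  obtain ⟨s, hs, hsB⟩ : ∃ s ∈ PP 3 H K, s ∉ Bad := by
    by_contra hcon
    push Not at hcon
    have h1 : (PP 3 H K).card ≤ Bad.card := Finset.card_le_card hcon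
    rw [E.card_PP] at h1
    omega
  rw [hBad, Finset.mem_insert, Finset.mem_union, Finset.mem_image, Finset.mem_image] at hsB
  push Not at hsB
  obtain ⟨hs0, hsB1, hsB2⟩ := hsB
  have h3s := h3 s hs
  have h2s : 2 • s = -s := by
    have : 3 • s = 2 • s + s := by rw [show (3 : ℕ) = 2 + 1 from rfl, add_smul, one_smul]
    rw [this] at h3s
    exact eq_neg_of_add_eq_zero_left h3s
  have h2s0 : 2 • s ≠ 0 := by
    rw [h2s]
    exact neg_ne_zero.2 hs0
  have hv1 : v + s ∈ PP 3 H K := hadd v hv s hs
  have hv2 : v + 2 • s ∈ PP 3 H K := by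
    have : v + 2 • s = v + s + s := by rw [two_smul, add_assoc]
    rw [this]
    exact hadd _ hv1 s hs
  have hn1 : (sl 3 f (v + s)).card ≠ 12 := by
    intro h12
    refine hsB1 (v + s) ?_ (by abel)
    rw [Finset.mem_erase, hT, mem_filter]
    refine ⟨?_, hv1, h12⟩
    intro e
    exact hs0 (by simpa using e)
  have hn2 : (sl 3 f (v + 2 • s)).card ≠ 12 := by
    intro h12
    refine hsB2 (v + 2 • s) ?_ (by rw [h2s]; abel)
    rw [Finset.mem_erase, hT, mem_filter]
    refine ⟨?_, hv2, h12⟩
    intro e
    exact h2s0 (by simpa using e)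
  have hline := Cub_prod _ _ l l' (by norm_num) (E.line hv hs hs0)
  -- the line is the disjoint union of three slices
  have hset : (univ.filter fun x => ∃ i < 3, 3 • gr f x = v + i • s) =
      (sl 3 f v ∪ sl 3 f (v + s)) ∪ sl 3 f (v + 2 • s) := by
    ext x
    unfold sl
    simp only [mem_filter, mem_univ, true_and, mem_union]
    constructor
    · rintro ⟨i, hi, hx⟩
      interval_cases i
      · left; left
        simpa using hx
      · left; right
        simpa using hx
      · right
        exact hx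
    · rintro ((hx | hx) | hx)
      · exact ⟨0, by norm_num, by simpa using hx⟩
      · exact ⟨1, by norm_num, by simpa using hx⟩
      · exact ⟨2, by norm_num, hx⟩
  have hd1 : Disjoint (sl 3 f v) (sl 3 f (v + s)) := by
    rw [Finset.disjoint_left]
    intro x hx hx'
    unfold sl at hx hx'
    rw [mem_filter] at hx hx'
    have : v = v + s := hx.2.symm.trans hx'.2
    exact hs0 (by simpa using this.symm)
  have hd2 : Disjoint (sl 3 f v ∪ sl 3 f (v + s)) (sl 3 f (v + 2 • s)) := by
    rw [Finset.disjoint_left]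
    intro x hx hx'
    unfold sl at hx hx'
    rw [mem_union, mem_filter, mem_filter] at hx
    rw [mem_filter] at hx'
    rcases hx with hx | hx
    · have : v = v + 2 • s := hx.2.symm.trans hx'.2
      exact h2s0 (by simpa using this.symm)
    · have : v + s = v + 2 • s := hx.2.symm.trans hx'.2
      rw [two_smul, ← add_assoc] at this
      exact hs0 (by simpa using this.symm)
  rw [hset, Finset.sum_union hd2, Finset.sum_union hd1, hsmall _ hv1 hn1, hsmall _ hv2 hn2,
    add_zero, add_zero] at hline
  exact hline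

end Pool.Agent.H38.T35
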