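import Pool.Agent.H38.RX.KillsT
import Pool.Agent.H16.RB2.QK

/-!
# T35 (MP_460e77_co, helper38): there is no planar function between non-elementary groups of order 243: definitions

Note of helper38 (kind wave3, 2026-12-05 00:45Z).  `f : H → K` planar, `|H| = |K| = 3 ^ 5`, `G = H × K`, `9 G = 0`, `|3 G| = 27`,
`gr f x = (x, f x)`, `sl 3 f v = {x | 3 • gr f x = v}` (slices), `PP 3 H K = 3 G` (Finset).
-/

set_option autoImplicit false

namespace Pool.Agent.H38.T35

open Finset Pool.Agent.H16.RB Pool.Agent.H88.Pl Pool.Agent.H38.RX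
open scoped Classical

/-- the value of the quotient of the products over `1 ≤ t < 2 p` modulo `p` -/
def tp (p α w : ℕ) : ℤ := if (p : ℤ) ∣ (α : ℤ) - w then 1 - ((α : ℤ) - w) / p else 0

section

variable {H K : Type*} [AddCommGroup H] [AddCommGroup K] [Fintype H] [Fintype K]

/-- the situation of the proof by contradiction -/
structure Sit (f : H → K) : Prop where
  hH : Fintype.card H = 3 ^ 5
  hK : Fintype.card K = 3 ^ 5
  hf : IsPlanar f
  h9 : ∀ g : H × K, 9 • g = 0
  hP : Nat.card (Set.range fun g : H × K => 3 • g) = 3 ^ 3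
  kills : ∀ {v : H × K}, v ∈ PP 3 H K → Kills 3 (gr f) (sl 3 f v) 3
  line : ∀ {v s : H × K}, v ∈ PP 3 H K → s ∈ PP 3 H K → s ≠ 0 →
    Kills 3 (gr f) (univ.filter fun x => ∃ i < 3, 3 • gr f x = v + i • s) 4
  top0 : ∀ g0 : H × K, ∑ x ∈ sl 3 f (3 • g0), (gr f x - g0) = 0
  top1 : ∀ (g0 : H × K) (l : H × K →+ ZMod 3),
    ∑ x ∈ sl 3 f (3 • g0), (l (gr f x)).val • (gr f x - g0) = 0

/-- number of points of `S` on which `l` is `c` -/
noncomputable def cn (f : H → K) (S : Finset H) (l : H × K →+ ZMod 3) (c : ZMod 3) : ℕ :=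
  (S.filter fun x => l (gr f x) = c).card

/-- number of ordered pairs in `S` on which `l` agrees (diagonal included) -/
noncomputable def EE (f : H → K) (S : Finset H) (l : H × K →+ ZMod 3) : ℕ :=
  ((S ×ˢ S).filter fun z => l (gr f z.1) = l (gr f z.2)).card

/-- number of ordered pairs in `S` whose difference is in `d + 3 G` -/
noncomputable def AA (f : H → K) (S : Finset H) (d : H × K) : ℕ :=
  ((S ×ˢ S).filter fun z => ∃ g : H × K, 3 • g = gr f z.1 - gr f z.2 - d).card

end

/-- the elements of `3 A` -/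
noncomputable def TT (A : Type*) [AddCommGroup A] [Fintype A] : Finset A :=
  univ.filter fun a => ∃ b : A, 3 • b = a

/-- the elements killed by `3` -/
noncomputable def ZZ (A : Type*) [AddCommGroup A] [Fintype A] : Finset A :=
  univ.filter fun a => 3 • a = 0

end Pool.Agent.H38.T35
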