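import Pool.Agent.H38.T35.Defs
import Pool.Agent.H16.RB2.Dig2

/-!
# T35 module Dig3: the product over `1 ≤ t < 2 p`

Copy the proof of `digit_factor` (Pool/Agent/H16/RB/QB.lean; its private lemmas on Gaussian binomials can be copied here) with `N = 2 p`, `M = p ^ 2`:
`A = α - w + M (w + 1) ≥ N`, the quotient is `(∏ η ^ (w + t)) * (-1) ^ (2 p - 1) * gb (A - 1) (2 p - 1)`, `gb ≡ (A - 1).choose (2 p - 1)` modulo `π`, and by Lucas
(`Choose.choose_modEq_choose_mod_mul_choose_div_nat`, `2 p - 1 = p * 1 + (p - 1)`) this is `((A - 1) / p) * ((A - 1) % p).choose (p - 1)`, i.e. `A / p - 1` if `p ∣ A` and `0` otherwise.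
The sign is `(-1) ^ (2 p - 1) = -1`, and `A / p ≡ (α - w) / p` modulo `p`.
-/

set_option autoImplicit false

namespace Pool.Agent.H38.T35

open Finset NumberField Pool.Agent.H16.RB

/-- Gaussian binomials -/
private def Dig3_gb {O : Type*} [CommRing O] (q : O) : ℕ → ℕ → O
  | _, 0 => 1
  | 0, _ + 1 => 0
  | n + 1, k + 1 => Dig3_gb q n k + q ^ (k + 1) * Dig3_gb q n (k + 1)

private theorem Dig3_gb_zero {O : Type*} [CommRing O] (q : O) (n : ℕ) : Dig3_gb q n 0 = 1 := by
  cases n <;> rw [Dig3_gb]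

private theorem Dig3_gb_lt {O : Type*} [CommRing O] (q : O) (n : ℕ) :
    ∀ k : ℕ, n < k → Dig3_gb q n k = 0 := by
  induction n with
  | zero =>
    intro k hk
    obtain ⟨j, rfl⟩ : ∃ j, k = j + 1 := ⟨k - 1, by omega⟩
    rw [Dig3_gb]
  | succ n ih =>
    intro k hk
    obtain ⟨j, rfl⟩ : ∃ j, k = j + 1 := ⟨k - 1, by omega⟩
    rw [Dig3_gb, ih j (by omega), ih (j + 1) (by omega), mul_zero, add_zero]

private theorem Dig3_gb_self {O : Type*} [CommRing O] (q : O) (n : ℕ) : Dig3_gb q n n = 1 := by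
  induction n with
  | zero => rw [Dig3_gb]
  | succ n ih => rw [Dig3_gb, ih, Dig3_gb_lt q n (n + 1) (by omega), mul_zero, add_zero]

private theorem Dig3_gb_prod {O : Type*} [CommRing O] (q : O) : ∀ n k : ℕ,
    Dig3_gb q (n + k) k * ∏ i ∈ range k, (q ^ (i + 1) - 1) =
      ∏ i ∈ range k, (q ^ (n + i + 1) - 1) := by
  intro n
  induction n with
  | zero =>
    intro k
    rw [zero_add, Dig3_gb_self, one_mul]
    exact prod_congr rfl fun i _ => by rw [zero_add]
  | succ n ihn =>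
    intro k
    induction k with
    | zero => rw [prod_range_zero, prod_range_zero, mul_one, add_zero, Dig3_gb_zero]
    | succ k ihk =>
      have h1 : Dig3_gb q (n + 1 + (k + 1)) (k + 1) =
          Dig3_gb q (n + 1 + k) k + q ^ (k + 1) * Dig3_gb q (n + (k + 1)) (k + 1) := by
        rw [show n + 1 + (k + 1) = (n + 1 + k) + 1 by ring, Dig3_gb,
          show n + (k + 1) = n + 1 + k by ring]
      have h2 := ihn (k + 1)
      have h3 : ∏ i ∈ range (k + 1), (q ^ (n + i + 1) - 1) =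
          (q ^ (n + 1) - 1) * ∏ i ∈ range k, (q ^ (n + 1 + i + 1) - 1) := by
        rw [prod_range_succ', mul_comm, add_zero]
        congr 1
        exact prod_congr rfl fun i _ => by rw [show n + (i + 1) + 1 = n + 1 + i + 1 by ring]
      rw [h3] at h2
      rw [h1, add_mul, mul_assoc, h2, prod_range_succ, ← mul_assoc, ihk, prod_range_succ]
      ring

private theorem Dig3_pow {O : Type*} [CommRing O] {q π : O} (h : π ∣ q - 1) (n : ℕ) :
    π ∣ q ^ n - 1 := by
  have h1 := sub_dvd_pow_sub_pow q 1 n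
  rw [one_pow] at h1
  exact h.trans h1

private theorem Dig3_gb_mod {O : Type*} [CommRing O] {q π : O} (h : π ∣ q - 1) (n : ℕ) :
    ∀ k : ℕ, π ∣ Dig3_gb q n k - (n.choose k : O) := by
  induction n with
  | zero =>
    intro k
    cases k with
    | zero => rw [Dig3_gb_zero, Nat.choose_zero_right, Nat.cast_one, sub_self]; exact dvd_zero _
    | succ k =>
      rw [Dig3_gb_lt q 0 (k + 1) (by omega), Nat.choose_zero_succ, Nat.cast_zero, sub_self]
      exact dvd_zero _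
  | succ n ih =>
    intro k
    cases k with
    | zero => rw [Dig3_gb_zero, Nat.choose_zero_right, Nat.cast_one, sub_self]; exact dvd_zero _
    | succ k =>
      rw [Dig3_gb, Nat.choose_succ_succ, Nat.cast_add]
      have h1 : Dig3_gb q n k + q ^ (k + 1) * Dig3_gb q n (k + 1) -
          ((n.choose k : O) + (n.choose (k + 1) : O)) =
          (Dig3_gb q n k - (n.choose k : O)) + (Dig3_gb q n (k + 1) - (n.choose (k + 1) : O)) +
            (q ^ (k + 1) - 1) * Dig3_gb q n (k + 1) := by ring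
      rw [h1]
      exact dvd_add (dvd_add (ih k) (ih (k + 1))) (dvd_mul_of_dvd_left (Dig3_pow h _) _)

/-- the value of the binomial modulo `p` -/
private theorem Dig3_lucas {p : ℕ} [hp : Fact p.Prime] {A α w : ℕ} (hA0 : 1 ≤ A)
    (hA : w + A = α + p ^ 2 * (w + 1)) :
    (p : ℤ) ∣ (((A - 1).choose (2 * p - 1) : ℕ) : ℤ) + tp p α w := by
  have hp1 := hp.out.one_lt
  have hαw : (α : ℤ) - w = A - (p : ℤ) ^ 2 * (w + 1) := by
    have h := congrArg (fun z : ℕ => (z : ℤ)) hA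
    push_cast at h
    linarith
  have e1 : (2 * p - 1) % p = p - 1 := by
    rw [show 2 * p - 1 = (p - 1) + p * 1 by omega, Nat.add_mul_mod_self_left]
    exact Nat.mod_eq_of_lt (by omega)
  have e2 : (2 * p - 1) / p = 1 := by
    rw [show 2 * p - 1 = (p - 1) + p * 1 by omega, Nat.add_mul_div_left _ _ (by omega),
      Nat.div_eq_of_lt (by omega), zero_add]
  have h1 := Choose.choose_modEq_choose_mod_mul_choose_div_nat (n := A - 1) (k := 2 * p - 1)
    (p := p)
  rw [e1, e2, Nat.choose_one_right] at h1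
  by_cases hd : p ∣ A
  · obtain ⟨c, hc⟩ := hd
    have hc0 : 0 < c := by
      rcases Nat.eq_zero_or_pos c with h0 | h0
      · rw [h0, mul_zero] at hc
        omega
      · exact h0
    obtain ⟨c', rfl⟩ : ∃ c', c = c' + 1 := ⟨c - 1, by omega⟩
    have e3 : A - 1 = (p - 1) + p * c' := by
      rw [hc, mul_add, mul_one]
      omega
    have e4 : (A - 1) % p = p - 1 := by
      rw [e3, Nat.add_mul_mod_self_left]
      exact Nat.mod_eq_of_lt (by omega)
    have e5 : (A - 1) / p = c' := by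
      rw [e3, Nat.add_mul_div_left _ _ (by omega), Nat.div_eq_of_lt (by omega), zero_add]
    rw [e4, e5, Nat.choose_self, one_mul] at h1
    have h2 : (p : ℤ) ∣ (((A - 1).choose (2 * p - 1) : ℕ) : ℤ) - (c' : ℤ) :=
      Nat.modEq_iff_dvd.1 h1.symm
    have h3 : (α : ℤ) - w = p * ((c' : ℤ) + 1 - p * (w + 1)) := by
      rw [hαw, hc]
      push_cast
      ring
    have hpz : (p : ℤ) ≠ 0 := by
      have : p ≠ 0 := by omega
      exact_mod_cast this
    have h4 : tp p α w = 1 - ((c' : ℤ) + 1 - p * (w + 1)) := by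
      unfold tp
      rw [if_pos ⟨_, h3⟩, h3, Int.mul_ediv_cancel_left _ hpz]
    rw [h4]
    have h5 : (((A - 1).choose (2 * p - 1) : ℕ) : ℤ) + (1 - ((c' : ℤ) + 1 - p * (w + 1))) =
        ((((A - 1).choose (2 * p - 1) : ℕ) : ℤ) - (c' : ℤ)) + p * (w + 1) := by ring
    rw [h5]
    exact dvd_add h2 (dvd_mul_right _ _)
  · have hn : ¬ (p : ℤ) ∣ (α : ℤ) - w := by
      rw [hαw]
      intro h
      have h2 : (p : ℤ) ∣ (p : ℤ) ^ 2 * (w + 1) :=
        dvd_mul_of_dvd_left (dvd_pow_self _ (by omega)) _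
      have h3 : (p : ℤ) ∣ (A : ℤ) := by
        have h4 := dvd_add h h2
        rwa [sub_add_cancel] at h4
      exact hd (by exact_mod_cast h3)
    have h2 : tp p α w = 0 := by
      unfold tp
      rw [if_neg hn]
    have hlt := Nat.mod_lt (A - 1) (show 0 < p by omega)
    have hne : (A - 1) % p ≠ p - 1 := by
      intro h
      apply hd
      have h3 := Nat.mod_add_div (A - 1) p
      rw [h] at h3
      refine ⟨(A - 1) / p + 1, ?_⟩
      rw [mul_add, mul_one]
      omega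
    rw [Nat.choose_eq_zero_of_lt (show (A - 1) % p < p - 1 by omega), zero_mul] at h1
    have h3 : (p : ℤ) ∣ (((A - 1).choose (2 * p - 1) : ℕ) : ℤ) - ((0 : ℕ) : ℤ) :=
      Nat.modEq_iff_dvd.1 h1.symm
    rw [h2, add_zero]
    simpa using h3

theorem digit_factor3 {O : Type*} [CommRing O] [IsDomain O] {p : ℕ} [Fact p.Prime] {η π : O}
    (hη : IsPrimitiveRoot η (p ^ 2)) (hπ : π ∣ η - 1) (hp : π ∣ (p : O)) (α w : ℕ) :
    ∃ u : O, ∏ t ∈ Ico 1 (2 * p), (η ^ α - η ^ (w + t)) =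
        (∏ t ∈ Ico 1 (2 * p), (1 - η ^ t)) * u ∧
      π ∣ u - ((tp p α w : ℤ) : O) := by
  have hp1 : 1 < p := (Fact.out : p.Prime).one_lt
  obtain ⟨N, hNe⟩ : ∃ N, N = 2 * p := ⟨_, rfl⟩
  obtain ⟨M, hMe⟩ : ∃ M, M = p ^ 2 := ⟨_, rfl⟩
  have hN : 0 < N := by omega
  have hNM : N ≤ M := by
    rw [hMe, hNe]
    nlinarith
  obtain ⟨A, hA⟩ : ∃ A, w + A = α + M * (w + 1) := ⟨α + M * (w + 1) - w, by
    have : w ≤ M * (w + 1) := by nlinarith
    omega⟩
  have hAN : N ≤ A := by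
    have h1 : w + M ≤ M * (w + 1) := by nlinarith
    omega
  have hηA : η ^ α = η ^ (w + A) := by
    rw [hA, pow_add, pow_mul, hMe, hη.pow_eq_one, one_pow, mul_one]
  rw [← hNe]
  have hterm : ∏ t ∈ Ico 1 N, (η ^ α - η ^ (w + t)) =
      (∏ t ∈ Ico 1 N, η ^ (w + t)) * ∏ t ∈ Ico 1 N, (η ^ (A - t) - 1) := by
    rw [← prod_mul_distrib]
    refine prod_congr rfl fun t ht => ?_
    rw [mem_Ico] at ht
    rw [mul_sub, mul_one, ← pow_add, hηA]
    congr 2
    omega
  have hrev : ∏ t ∈ Ico 1 N, (η ^ (A - t) - 1) =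
      ∏ i ∈ range (N - 1), (η ^ (A - N + i + 1) - 1) := by
    refine prod_nbij' (fun t => N - 1 - t) (fun i => N - 1 - i) ?_ ?_ ?_ ?_ ?_
    · intro t ht
      rw [mem_Ico] at ht
      rw [mem_range]
      omega
    · intro i hi
      rw [mem_range] at hi
      rw [mem_Ico]
      omega
    · intro t ht
      rw [mem_Ico] at ht
      omega
    · intro i hi
      rw [mem_range] at hi
      omega
    · intro t ht
      rw [mem_Ico] at ht
      congr 2
      omega
  have hgb := Dig3_gb_prod η (A - N) (N - 1)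
  rw [show A - N + (N - 1) = A - 1 by omega] at hgb
  have hm1 : (-1 : O) ^ (N - 1) = -1 := by
    apply Odd.neg_one_pow
    refine ⟨p - 1, ?_⟩
    omega
  have hsgn : ∏ i ∈ range (N - 1), (η ^ (i + 1) - 1) = - ∏ t ∈ Ico 1 N, (1 - η ^ t) := by
    have h1 : ∏ t ∈ Ico 1 N, (1 - η ^ t) = ∏ i ∈ range (N - 1), (1 - η ^ (i + 1)) := by
      rw [prod_Ico_eq_prod_range]
      exact prod_congr rfl fun i _ => by rw [add_comm 1 i]
    have h2 : ∏ i ∈ range (N - 1), (η ^ (i + 1) - 1) =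
        ∏ i ∈ range (N - 1), ((-1) * (1 - η ^ (i + 1))) :=
      prod_congr rfl fun i _ => by ring
    rw [h1, h2, prod_mul_distrib, prod_const, card_range, hm1]
    ring
  refine ⟨(∏ t ∈ Ico 1 N, η ^ (w + t)) * (- Dig3_gb η (A - 1) (N - 1)), ?_, ?_⟩
  · rw [hterm, hrev, ← hgb, hsgn]
    ring
  · have h1 : π ∣ (∏ t ∈ Ico 1 N, η ^ (w + t)) - 1 := by
      rw [prod_pow_eq_pow_sum]
      exact Dig3_pow hπ _
    have h3 : π ∣ Dig3_gb η (A - 1) (N - 1) - ((A - 1).choose (N - 1) : O) := Dig3_gb_mod hπ _ _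
    have h4 : π ∣ ((A - 1).choose (N - 1) : O) + ((tp p α w : ℤ) : O) := by
      rw [hMe] at hA
      obtain ⟨c, hc⟩ := Dig3_lucas (p := p) (show 1 ≤ A by omega) hA
      rw [← hNe] at hc
      have h5 := congrArg (fun z : ℤ => (z : O)) hc
      push_cast at h5
      rw [h5]
      exact dvd_mul_of_dvd_left hp _
    have h5 : (∏ t ∈ Ico 1 N, η ^ (w + t)) * (- Dig3_gb η (A - 1) (N - 1)) -
        ((tp p α w : ℤ) : O) =
        ((∏ t ∈ Ico 1 N, η ^ (w + t)) - 1) * (- Dig3_gb η (A - 1) (N - 1)) -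
        (Dig3_gb η (A - 1) (N - 1) - ((A - 1).choose (N - 1) : O)) -
        (((A - 1).choose (N - 1) : O) + ((tp p α w : ℤ) : O)) := by ring
    rw [h5]
    exact dvd_sub (dvd_sub (dvd_mul_of_dvd_left h1 _) h3) h4

/-- `∏ (1 - ζ ^ t)` over `1 ≤ t < 2 p` divides `(ζ - 1) ^ (3 p - 2)`: for `t ≠ p` the number `1 - ζ ^ t` is associated to `1 - ζ`
(`ζ ^ t` is a primitive root as well: `hζ.associated_sub_one…` or `one_sub_dvd` both ways), and `1 - ζ ^ p` divides `(1 - ζ) ^ p` by `cost_lin` and `Cyc.root_dvd`. -/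
theorem cost_digit3 {p : ℕ} [Fact p.Prime] (hp2 : p ≠ 2) {L : Type*} [Field L] [NumberField L]
    [IsCyclotomicExtension {p ^ 2} ℚ L] {ζ : L} (hζ : IsPrimitiveRoot ζ (p ^ 2)) :
    ∏ t ∈ Ico 1 (2 * p), (1 - hζ.toInteger ^ t) ∣ (hζ.toInteger - 1) ^ (3 * p - 2) := by
  have hp : p.Prime := Fact.out
  have hp1 := hp.one_lt
  have hmem : p ∈ Ico 1 (2 * p) := mem_Ico.2 ⟨by omega, by omega⟩
  have hζ' : IsPrimitiveRoot hζ.toInteger (p ^ 2) := hζ.toInteger_isPrimitiveRoot
  have h1 : (1 - hζ.toInteger ^ p) ∣ (hζ.toInteger - 1) ^ p := by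
    have h := cost_lin (p := p) (k := 1) (L := L) hζ
    rw [pow_one] at h
    rw [← neg_sub, neg_dvd]
    exact h
  have h2 : ∀ t ∈ (Ico 1 (2 * p)).erase p, (1 - hζ.toInteger ^ t) ∣ (hζ.toInteger - 1) := by
    intro t ht
    obtain ⟨htp, ht⟩ := mem_erase.1 ht
    obtain ⟨ht1, ht2⟩ := mem_Ico.1 ht
    have hnd : ¬ p ∣ t := by
      rintro ⟨c, hc⟩
      have hc0 : c ≠ 0 := by
        rintro rfl
        omega
      have hc1 : c ≠ 1 := by
        rintro rfl
        omega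
      have : 2 ≤ c := by omega
      have : p * 2 ≤ p * c := Nat.mul_le_mul_left p this
      omega
    have hcop : Nat.Coprime t (p ^ 2) := ((hp.coprime_iff_not_dvd.2 hnd).symm).pow_right 2
    have hprim : IsPrimitiveRoot (hζ.toInteger ^ t) (p ^ 2) :=
      hζ'.pow_of_coprime t hcop
    have : NeZero (p ^ 2) := ⟨pow_ne_zero 2 hp.ne_zero⟩
    obtain ⟨s, -, hs⟩ := hprim.eq_pow_of_pow_eq_one hζ'.pow_eq_one
    rw [← neg_sub 1 hζ.toInteger, dvd_neg]
    have h := Cyc.one_sub_dvd (hζ.toInteger ^ t) s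
    rw [hs] at h
    exact h
  have hcard : ((Ico 1 (2 * p)).erase p).card = 2 * p - 2 := by
    rw [card_erase_of_mem hmem, Nat.card_Ico]
    omega
  rw [← mul_prod_erase _ _ hmem]
  have h3 : (hζ.toInteger - 1) ^ (3 * p - 2) =
      (hζ.toInteger - 1) ^ p * ∏ _t ∈ (Ico 1 (2 * p)).erase p, (hζ.toInteger - 1) := by
    rw [prod_const, hcard, ← pow_add]
    congr 1
    omega
  rw [h3]
  exact mul_dvd_mul h1 (prod_dvd_prod_of_dvd _ _ h2)

end Pool.Agent.H38.T35
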