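import Pool.Agent.H38.T35.Cub

/-!
# T35 module Six: no functional is `(6,6)` on a slice of size 12 (case B)

`A = {x ∈ S | l x = a}`.  `half_kills`: `(l x - b) = (a - b) [x ∈ A]` on `S`, so `(a - b) ∑_A l' l'' = ∑_S (l - b) l' l''`, which is 0 by `E.cub` (polarised in two functionals: `(l' + l'') ^ 2 * l`, `2` is invertible) and `E.kills`; the same with fewer factors.
So on `A`: `∑ l' l'' = 0`, `∑ l' = 0`, and `6 = 0`.  `cls_three`: if all `l'` are constant on `A` take `A` itself.  Otherwise `l'` takes a value `≠ l' x` on `A`; the value counts of `l'` on `A` are `≡ 0` modulo 3 (`cn_dvd`), so they are `(3,3)`; `A' = {y ∈ A | l' y = l' x}`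
has three elements.  For any `l''`: if it is constant on `A` it is constant on `A'`; otherwise `A'' = {y ∈ A | l'' y = l'' x}` has three elements and with the other values `a1`, `b1`:
`∑_A (l' - a1) (l'' - b1) = (a0 - a1) (b0 - b1) |A' ∩ A''|`, so `3 ∣ |A' ∩ A''|`, and `x` is in it, so `A' ⊆ A''`.  By `sep` the points of `A'` differ by elements of `3 G`.
`no_six`: `AA f S 0 ≥ 36` (for each `x ∈ S` at least three `y`), the other slices have `AA ≥ card`: `∑ AA ≥ 243 + 24`, against `sum_AA0` (`|3 K| = 9`).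
-/

set_option autoImplicit false

namespace Pool.Agent.H38.T35

open Finset Pool.Agent.H88.Pl Pool.Agent.H16.RB Pool.Agent.H38.RX
open scoped Classical

variable {H K : Type*} [AddCommGroup H] [AddCommGroup K] [Fintype H] [Fintype K]

private lemma k1 {f : H → K} {S : Finset H} (h : Kills 3 (gr f) S 3) (l₁ : H × K →+ ZMod 3)
    (c₁ : ZMod 3) : ∑ x ∈ S, (l₁ (gr f x) - c₁) = 0 := by
  have := h [(l₁, c₁)] (by simp)
  simpa using this

private lemma k2 {f : H → K} {S : Finset H} (h : Kills 3 (gr f) S 3) (l₁ : H × K →+ ZMod 3)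
    (c₁ : ZMod 3) (l₂ : H × K →+ ZMod 3) (c₂ : ZMod 3) :
    ∑ x ∈ S, (l₁ (gr f x) - c₁) * (l₂ (gr f x) - c₂) = 0 := by
  have := h [(l₁, c₁), (l₂, c₂)] (by simp)
  simpa using this

private lemma two_zero : ∀ X : ZMod 3, 2 * X = 0 → X = 0 := by decide

private lemma polar {f : H → K} (E : Sit f) (h : (ZZ K).card = 27) {v : H × K}
    (hv : v ∈ PP 3 H K) (l l₁ l₂ : H × K →+ ZMod 3) :
    ∑ x ∈ sl 3 f v, l (gr f x) * (l₁ (gr f x) * l₂ (gr f x)) = 0 := by
  have h1 := E.cub h hv (l₁ + l₂) l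
  have h2 := E.cub h hv l₁ l
  have h3 := E.cub h hv l₂ l
  apply two_zero
  have h4 : 2 * ∑ x ∈ sl 3 f v, l (gr f x) * (l₁ (gr f x) * l₂ (gr f x)) =
      (∑ x ∈ sl 3 f v, (l₁ + l₂) (gr f x) * (l₁ + l₂) (gr f x) * l (gr f x)) -
      (∑ x ∈ sl 3 f v, l₁ (gr f x) * l₁ (gr f x) * l (gr f x)) -
      (∑ x ∈ sl 3 f v, l₂ (gr f x) * l₂ (gr f x) * l (gr f x)) := by
    rw [mul_sum, ← sum_sub_distrib, ← sum_sub_distrib]
    refine sum_congr rfl fun x _ => ?_
    rw [AddMonoidHom.add_apply]
    ring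
  rw [h4, h1, h2, h3]
  ring

theorem Sit.half_kills {f : H → K} (E : Sit f) (h : (ZZ K).card = 27) {v : H × K}
    (hv : v ∈ PP 3 H K) (l : H × K →+ ZMod 3) {a b : ZMod 3} (hab : a ≠ b)
    (hl : ∀ x ∈ sl 3 f v, l (gr f x) = a ∨ l (gr f x) = b) (ha : cn f (sl 3 f v) l a = 6) :
    Kills 3 (gr f) ((sl 3 f v).filter fun x => l (gr f x) = a) 3 := by
  intro L hL
  have hk := E.kills hv
  have hab' : a - b ≠ 0 := sub_ne_zero.2 hab
  have key : (a - b) * ∑ x ∈ (sl 3 f v).filter (fun x => l (gr f x) = a),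
        (L.map fun l => l.1 (gr f x) - l.2).prod =
      ∑ x ∈ sl 3 f v, (l (gr f x) - b) * (L.map fun l => l.1 (gr f x) - l.2).prod := by
    rw [sum_filter, mul_sum]
    refine sum_congr rfl fun x hx => ?_
    by_cases hxa : l (gr f x) = a
    · rw [if_pos hxa, hxa]
    · rw [if_neg hxa, (hl x hx).resolve_left hxa, sub_self, zero_mul, mul_zero]
  have key2 : ∑ x ∈ sl 3 f v, (l (gr f x) - b) * (L.map fun l => l.1 (gr f x) - l.2).prod = 0 := by
    rcases L with _ | ⟨p, _ | ⟨q, _ | ⟨r, t⟩⟩⟩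
    · simpa using k1 hk l b
    · simpa using k2 hk l b p.1 p.2
    · have h1 := polar E h hv l p.1 q.1
      have h2 := k2 hk l 0 p.1 0
      have h3 := k2 hk l 0 q.1 q.2
      have h4 := k2 hk p.1 p.2 q.1 q.2
      have h5 : ∑ x ∈ sl 3 f v, (l (gr f x) - b) *
            (([p, q] : List _).map fun l => l.1 (gr f x) - l.2).prod =
          (∑ x ∈ sl 3 f v, l (gr f x) * (p.1 (gr f x) * q.1 (gr f x))) -
          q.2 * (∑ x ∈ sl 3 f v, (l (gr f x) - 0) * (p.1 (gr f x) - 0)) -
          p.2 * (∑ x ∈ sl 3 f v, (l (gr f x) - 0) * (q.1 (gr f x) - q.2)) -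
          b * (∑ x ∈ sl 3 f v, (p.1 (gr f x) - p.2) * (q.1 (gr f x) - q.2)) := by
        rw [mul_sum, mul_sum, mul_sum, ← sum_sub_distrib, ← sum_sub_distrib, ← sum_sub_distrib]
        refine sum_congr rfl fun x _ => ?_
        simp only [List.map_cons, List.map_nil, List.prod_cons, List.prod_nil]
        ring
      rw [h5, h1, h2, h3, h4]
      ring
    · simp only [List.length_cons] at hL
      omega
  exact (mul_eq_zero.1 (key.trans key2)).resolve_left hab'

private lemma two_val {f : H → K} {A : Finset H} (hA : Kills 3 (gr f) A 3) (h6 : A.card = 6)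
    (l : H × K →+ ZMod 3) {x y : H} (hx : x ∈ A) (hy : y ∈ A)
    (hne : l (gr f y) ≠ l (gr f x)) :
    (A.filter fun z => l (gr f z) = l (gr f x)).card = 3 ∧
      ∀ z ∈ A, l (gr f z) = l (gr f x) ∨ l (gr f z) = l (gr f y) := by
  have h1 : 3 ∣ (A.filter fun z => l (gr f z) = l (gr f x)).card := cn_dvd hA l _
  have h2 : 3 ∣ (A.filter fun z => l (gr f z) = l (gr f y)).card := cn_dvd hA l _
  have h3 : 0 < (A.filter fun z => l (gr f z) = l (gr f x)).card :=
    card_pos.2 ⟨x, mem_filter.2 ⟨hx, rfl⟩⟩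
  have h4 : 0 < (A.filter fun z => l (gr f z) = l (gr f y)).card :=
    card_pos.2 ⟨y, mem_filter.2 ⟨hy, rfl⟩⟩
  have hd : Disjoint (A.filter fun z => l (gr f z) = l (gr f x))
      (A.filter fun z => l (gr f z) = l (gr f y)) := by
    rw [disjoint_left]
    intro z hz hz'
    exact hne ((mem_filter.1 hz').2.symm.trans (mem_filter.1 hz).2)
  have hsub : (A.filter fun z => l (gr f z) = l (gr f x)) ∪
      (A.filter fun z => l (gr f z) = l (gr f y)) ⊆ A :=
    union_subset (filter_subset _ _) (filter_subset _ _)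
  have h5 := card_le_card hsub
  rw [card_union_of_disjoint hd, h6] at h5
  have h6' := Nat.le_of_dvd h3 h1
  have h7 := Nat.le_of_dvd h4 h2
  refine ⟨by omega, fun z hz => ?_⟩
  have heq : (A.filter fun z => l (gr f z) = l (gr f x)) ∪
      (A.filter fun z => l (gr f z) = l (gr f y)) = A := by
    apply eq_of_subset_of_card_le hsub
    rw [card_union_of_disjoint hd, h6]
    omega
  rw [← heq, mem_union, mem_filter, mem_filter] at hz
  rcases hz with hz | hz
  · exact Or.inl hz.2
  · exact Or.inr hz.2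

theorem cls_three {f : H → K} {A : Finset H} (hA : Kills 3 (gr f) A 3) (h6 : A.card = 6) {x : H}
    (hx : x ∈ A) : 3 ≤ (A.filter fun y => ∃ g : H × K, 3 • g = gr f x - gr f y).card := by
  by_cases hc : ∀ l : H × K →+ ZMod 3, ∀ y ∈ A, l (gr f y) = l (gr f x)
  · have h1 : (A.filter fun y => ∃ g : H × K, 3 • g = gr f x - gr f y) = A := by
      refine filter_true_of_mem fun y hy => ?_
      exact sep (p := 3) _ fun l => by rw [map_sub, hc l y hy, sub_self]
    rw [h1, h6]
    norm_num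
  · push Not at hc
    obtain ⟨l, y1, hy1, hne⟩ := hc
    obtain ⟨hA', hval⟩ := two_val hA h6 l hx hy1 hne
    refine le_trans hA'.ge (card_le_card ?_)
    intro y hy
    have hy' := mem_filter.1 hy
    refine mem_filter.2 ⟨hy'.1, sep (p := 3) _ fun m => ?_⟩
    rw [map_sub, sub_eq_zero]
    symm
    by_cases hcc : ∀ z ∈ A, m (gr f z) = m (gr f x)
    · exact hcc y hy'.1
    · push Not at hcc
      obtain ⟨y2, hy2, hne2⟩ := hcc
      obtain ⟨-, hval2⟩ := two_val hA h6 m hx hy2 hne2
      have hk := k2 hA l (l (gr f y1)) m (m (gr f y2))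
      have hsum : ∑ z ∈ A, (l (gr f z) - l (gr f y1)) * (m (gr f z) - m (gr f y2)) =
          ((A.filter fun z => l (gr f z) = l (gr f x) ∧ m (gr f z) = m (gr f x)).card : ZMod 3) *
            ((l (gr f x) - l (gr f y1)) * (m (gr f x) - m (gr f y2))) := by
        rw [← nsmul_eq_mul, ← sum_const, sum_filter]
        refine sum_congr rfl fun z hz => ?_
        rcases hval z hz with h1 | h1
        · rcases hval2 z hz with h2 | h2
          · rw [if_pos ⟨h1, h2⟩, h1, h2]
          · rw [if_neg, h2, sub_self, mul_zero]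
            rintro ⟨-, h3⟩
            exact hne2 (h2.symm.trans h3)
        · rw [if_neg, h1, sub_self, zero_mul]
          rintro ⟨h3, -⟩
          exact hne (h1.symm.trans h3)
      rw [hsum, mul_eq_zero, mul_eq_zero, sub_eq_zero, sub_eq_zero] at hk
      have h3 : ((A.filter fun z => l (gr f z) = l (gr f x) ∧
          m (gr f z) = m (gr f x)).card : ZMod 3) = 0 := by
        rcases hk with h | h | h
        · exact h
        · exact absurd h.symm hne
        · exact absurd h.symm hne2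
      rw [ZMod.natCast_eq_zero_iff] at h3
      have h4 := Nat.le_of_dvd (card_pos.2 ⟨x, mem_filter.2 ⟨hx, rfl, rfl⟩⟩) h3
      have hsub : (A.filter fun z => l (gr f z) = l (gr f x) ∧ m (gr f z) = m (gr f x)) ⊆
          A.filter fun z => l (gr f z) = l (gr f x) := by
        intro z hz
        have := mem_filter.1 hz
        exact mem_filter.2 ⟨this.1, this.2.1⟩
      have heq := eq_of_subset_of_card_le hsub (by rw [hA']; exact h4)
      rw [← heq] at hy
      exact (mem_filter.1 hy).2.2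

private lemma AA_eq (f : H → K) (S : Finset H) :
    AA f S 0 = ∑ x ∈ S, (S.filter fun y => ∃ g : H × K, 3 • g = gr f x - gr f y).card := by
  rw [AA, card_filter, sum_product]
  refine sum_congr rfl fun x _ => ?_
  rw [card_filter]
  refine sum_congr rfl fun y _ => ?_
  simp only [sub_zero]

private lemma card_le_AA (f : H → K) (S : Finset H) : S.card ≤ AA f S 0 := by
  rw [AA_eq, card_eq_sum_ones]
  refine sum_le_sum fun x hx => ?_
  exact card_pos.2 ⟨x, mem_filter.2 ⟨hx, 0, by rw [sub_self, smul_zero]⟩⟩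

theorem Sit.no_six {f : H → K} (E : Sit f) (h : (ZZ K).card = 27) (hT : (TT K).card = 9)
    {v : H × K} (hv : v ∈ PP 3 H K) (hn : (sl 3 f v).card = 12) (l : H × K →+ ZMod 3) :
    EE f (sl 3 f v) l = 144 ∨ EE f (sl 3 f v) l = 54 := by
  rcases E.twelve_cn hv hn l with h1 | h1 | ⟨a, b, hab, hl, ha, hb⟩
  · exact Or.inl h1
  · exact Or.inr h1
  exfalso
  have hA := E.half_kills h hv l hab hl ha
  have hB := E.half_kills h hv l hab.symm (fun x hx => (hl x hx).symm) hb
  have h36 : 36 ≤ AA f (sl 3 f v) 0 := by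
    rw [AA_eq]
    have h2 : ∑ x ∈ sl 3 f v, 3 = 36 := by rw [sum_const, hn, smul_eq_mul]
    rw [← h2]
    refine sum_le_sum fun x hx => ?_
    rcases hl x hx with h3 | h3
    · refine le_trans (cls_three hA ha (mem_filter.2 ⟨hx, h3⟩)) (card_le_card ?_)
      intro y hy
      have hy' := mem_filter.1 hy
      exact mem_filter.2 ⟨(mem_filter.1 hy'.1).1, hy'.2⟩
    · refine le_trans (cls_three hB hb (mem_filter.2 ⟨hx, h3⟩)) (card_le_card ?_)
      intro y hy
      have hy' := mem_filter.1 hy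
      exact mem_filter.2 ⟨(mem_filter.1 hy'.1).1, hy'.2⟩
  have hs := E.sum_AA0
  have hc := E.sum_card
  have h4 : ∑ v' ∈ PP 3 H K, ((sl 3 f v').card + if v' = v then 24 else 0) ≤
      ∑ v' ∈ PP 3 H K, AA f (sl 3 f v') 0 := by
    refine sum_le_sum fun v' _ => ?_
    by_cases hvv : v' = v
    · rw [if_pos hvv, hvv, hn]
      exact h36
    · rw [if_neg hvv, add_zero]
      exact card_le_AA f _
  rw [sum_add_distrib, hc, sum_ite_eq' (PP 3 H K) v, if_pos hv] at h4
  omega

end Pool.Agent.H38.T35
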