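import Pool.Agent.H38.T35.Two
import Pool.Agent.H38.T35.Cards

/-!
# T35 module Sizes: the sizes of the slices

`ne_six`: all functionals are constant on a slice of size 6 (`six_cn`), so by `sep` all 36 pairs are counted by `AA f (sl 3 f v) 0`, and each of the other slices has `AA ≥ card`: `∑ AA ≥ 243 + 30`, against `sum_AA0`.
So the sizes are `0` or `9 + 3 m` with `m ≥ 0` (`card_dvd`, `ne_three`).  `∑ (n - 9) = 0` (27 slices) and `∑ (n - 9) ^ 2 = 243 - |ZZ K|` (integers).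
`caseA`: `ZZ K` has 81 elements: `∑ m = 0`, `∑ m ^ 2 = 18`: the number `j` of empty slices (`m = -3`) satisfies `∑_{m > 0} m = 3 j`, `∑_{m > 0} m ^ 2 = 18 - 9 j ≥ 3 j`, so `j = 1`, `∑ m = 3`, `∑ m ^ 2 = 9 = (∑ m) ^ 2`: exactly one `m > 0`, `m = 3`.
`caseB`: `∑ m ^ 2 = 24`: `j = 2` and all positive `m` are `1` (six of them).
-/

set_option autoImplicit false

namespace Pool.Agent.H38.T35

open Finset Pool.Agent.H88.Pl Pool.Agent.H16.RB Pool.Agent.H38.RX
open scoped Classical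

variable {H K : Type*} [AddCommGroup H] [AddCommGroup K] [Fintype H] [Fintype K]

private theorem Sizes_diag (f : H → K) (S : Finset H) : S.card ≤ AA f S 0 := by
  rw [AA]
  have h : (S.image fun x => (x, x)) ⊆
      (S ×ˢ S).filter fun z => ∃ g : H × K, 3 • g = gr f z.1 - gr f z.2 - 0 := by
    intro z hz
    rw [mem_image] at hz
    obtain ⟨x, hx, rfl⟩ := hz
    rw [mem_filter, mem_product]
    exact ⟨⟨hx, hx⟩, 0, by simp⟩
  calc S.card = (S.image fun x => (x, x)).card := by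
        rw [card_image_of_injective _ (fun a b hab => congrArg Prod.fst hab)]
    _ ≤ _ := card_le_card h

theorem Sit.ne_six {f : H → K} (E : Sit f) {v : H × K} (hv : v ∈ PP 3 H K) :
    (sl 3 f v).card ≠ 6 := by
  intro hn
  have : Fact (Nat.Prime 3) := ⟨Nat.prime_three⟩
  have h36 : AA f (sl 3 f v) 0 = 36 := by
    rw [AA, filter_true_of_mem, card_product, hn]
    rintro z hz
    rw [mem_product] at hz
    rw [sub_zero]
    refine sep _ fun l => ?_
    obtain ⟨c, hc⟩ := E.six_cn hv hn l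
    rw [map_sub, hc _ hz.1, hc _ hz.2, sub_self]
  have h1 := E.sum_AA0
  have h2 := E.sum_card
  have h3 : ∑ w ∈ (PP 3 H K).erase v, (sl 3 f w).card ≤
      ∑ w ∈ (PP 3 H K).erase v, AA f (sl 3 f w) 0 :=
    sum_le_sum fun w _ => Sizes_diag f _
  rw [← add_sum_erase _ _ hv] at h1 h2
  omega

private theorem Sizes_form {f : H → K} (E : Sit f) {v : H × K} (hv : v ∈ PP 3 H K) :
    (sl 3 f v).card = 0 ∨ ∃ k, (sl 3 f v).card = 9 + 3 * k := by
  have h1 := card_dvd (E.kills hv)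
  have h2 := E.ne_three hv
  have h3 := E.ne_six hv
  rcases Nat.eq_zero_or_pos (sl 3 f v).card with h | h
  · exact Or.inl h
  · right
    exact ⟨((sl 3 f v).card - 9) / 3, by omega⟩

private theorem Sizes_core {α : Type*} (P : Finset α) (n : α → ℕ) (hP : P.card = 27)
    (h : ∀ v ∈ P, n v = 0 ∨ ∃ k, n v = 9 + 3 * k) (hs : ∑ v ∈ P, n v = 243) (c : ℕ)
    (hq : ∑ v ∈ P, n v ^ 2 = 2187 + 9 * c) :
    ∃ (m : α → ℕ) (A : Finset α) (j : ℕ), A ⊆ P ∧ (∀ v ∈ P, v ∉ A → n v = 0) ∧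
      (∀ v ∈ A, n v = 9 + 3 * m v) ∧ A.card + j = 27 ∧ ∑ v ∈ A, m v = 3 * j ∧
      ∑ v ∈ A, m v ^ 2 + 9 * j = c := by
  set A := P.filter fun v => n v ≠ 0 with hA
  set m : α → ℕ := fun v => (n v - 9) / 3 with hm
  have hAn : ∀ v ∈ A, n v = 9 + 3 * m v := by
    intro v hv
    rw [hA, mem_filter] at hv
    rcases h v hv.1 with h0 | ⟨k, hk⟩
    · exact absurd h0 hv.2
    · simp only [hm]
      omega
  have h1 : ∑ v ∈ P, n v = ∑ v ∈ A, n v := by
    rw [hA]
    exact (sum_filter_ne_zero P).symm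
  have h2 : ∑ v ∈ P, n v ^ 2 = ∑ v ∈ A, n v ^ 2 := by
    rw [hA, sum_filter]
    refine sum_congr rfl fun v _ => ?_
    split_ifs with h0
    · rfl
    · push Not at h0
      rw [h0]
      norm_num
  have hle : A.card ≤ 27 := hP ▸ card_le_card (filter_subset _ _)
  have h3 : ∑ v ∈ A, n v = 9 * A.card + 3 * ∑ v ∈ A, m v := by
    rw [sum_congr rfl hAn, sum_add_distrib, sum_const, smul_eq_mul, mul_sum, mul_comm 9]
  have h4 : ∑ v ∈ A, n v ^ 2 = 81 * A.card + 54 * ∑ v ∈ A, m v + 9 * ∑ v ∈ A, m v ^ 2 := by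
    have : ∀ v ∈ A, n v ^ 2 = 81 + 54 * m v + 9 * m v ^ 2 := by
      intro v hv
      rw [hAn v hv]
      ring
    rw [sum_congr rfl this, sum_add_distrib, sum_add_distrib, sum_const, smul_eq_mul, mul_sum,
      mul_sum, mul_comm 81]
  refine ⟨m, A, 27 - A.card, filter_subset _ _, ?_, hAn, by omega, by omega, by omega⟩
  intro v hv hvA
  by_contra h0
  exact hvA (mem_filter.2 ⟨hv, h0⟩)

private theorem Sizes_le {α : Type*} (A : Finset α) (m : α → ℕ) :
    ∑ v ∈ A, m v ≤ ∑ v ∈ A, m v ^ 2 :=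
  sum_le_sum fun v _ => Nat.le_self_pow two_ne_zero _

private theorem Sizes_sq {α : Type*} (A : Finset α) (m : α → ℕ) :
    ∑ v ∈ A, m v ^ 2 ≤ (∑ v ∈ A, m v) ^ 2 := by
  rw [sq (∑ v ∈ A, m v), sum_mul]
  refine sum_le_sum fun v hv => ?_
  rw [sq]
  exact Nat.mul_le_mul_left _ (single_le_sum (f := m) (fun _ _ => Nat.zero_le _) hv)

private theorem Sizes_one {α : Type*} (A : Finset α) (m : α → ℕ) (h1 : ∑ v ∈ A, m v = 3)
    (h2 : ∑ v ∈ A, m v ^ 2 = 9) : ∃ v1 ∈ A, m v1 = 3 ∧ ∀ v ∈ A, v ≠ v1 → m v = 0 := by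
  have h3 : ∃ v1 ∈ A, m v1 ≠ 0 := by
    by_contra hc
    push Not at hc
    rw [sum_eq_zero hc] at h1
    omega
  obtain ⟨v1, hv1, h0⟩ := h3
  have h4 := Sizes_sq (A.erase v1) m
  rw [← add_sum_erase _ _ hv1] at h1 h2
  generalize hr : ∑ v ∈ A.erase v1, m v = r at *
  generalize ∑ v ∈ A.erase v1, m v ^ 2 = s at *
  have h5 : m v1 = 3 := by
    have h6 : m v1 ≤ 3 := by omega
    have h7 : r = 3 - m v1 := by omega
    subst h7
    generalize m v1 = a at *
    interval_cases a <;> omega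
  refine ⟨v1, hv1, h5, fun v hv hne => ?_⟩
  have h8 : r = 0 := by omega
  rw [h8] at hr
  exact (sum_eq_zero_iff.1 hr) v (mem_erase.2 ⟨hne, hv⟩)

theorem Sit.caseA {f : H → K} (E : Sit f) (h : (ZZ K).card = 81) :
    ∃ v1 ∈ PP 3 H K, (sl 3 f v1).card = 18 ∧
      ∀ v ∈ PP 3 H K, v ≠ v1 → (sl 3 f v).card = 0 ∨ (sl 3 f v).card = 9 := by
  obtain ⟨m, A, j, hAP, h0, hA, hj, h1, h2⟩ := Sizes_core (PP 3 H K) (fun v => (sl 3 f v).card)
    E.card_PP (fun v hv => Sizes_form E hv) E.sum_card 18 (by have := E.sum_sq; omega)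
  have h3 := Sizes_le A m
  have h4 := Sizes_sq A m
  have hj1 : j = 1 := by
    have : j ≤ 1 := by omega
    interval_cases j
    · rw [h1] at h4
      omega
    · rfl
  subst hj1
  obtain ⟨v1, hv1, h5, h6⟩ := Sizes_one A m (by omega) (by omega)
  refine ⟨v1, hAP hv1, ?_, fun v hv hne => ?_⟩
  · have := hA v1 hv1
    omega
  · by_cases hvA : v ∈ A
    · have h7 := hA v hvA
      have h8 := h6 v hvA hne
      right
      omega
    · exact Or.inl (h0 v hv hvA)

theorem Sit.caseB {f : H → K} (E : Sit f) (h : (ZZ K).card = 27) :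
    (∀ v ∈ PP 3 H K, (sl 3 f v).card = 0 ∨ (sl 3 f v).card = 9 ∨ (sl 3 f v).card = 12) ∧
      ((PP 3 H K).filter fun v => (sl 3 f v).card = 12).card = 6 := by
  obtain ⟨m, A, j, hAP, h0, hA, hj, h1, h2⟩ := Sizes_core (PP 3 H K) (fun v => (sl 3 f v).card)
    E.card_PP (fun v hv => Sizes_form E hv) E.sum_card 24 (by have := E.sum_sq; omega)
  have h3 := Sizes_le A m
  have h4 := Sizes_sq A m
  have hj1 : j = 2 := by
    have : j ≤ 2 := by omega
    interval_cases j
    · rw [h1] at h4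
      omega
    · rw [h1] at h4
      omega
    · rfl
  subst hj1
  have h5 : ∀ v ∈ A, m v = m v ^ 2 := by
    have h6 : ∑ v ∈ A, m v = ∑ v ∈ A, m v ^ 2 := by omega
    exact (sum_eq_sum_iff_of_le fun v _ => Nat.le_self_pow two_ne_zero _).1 h6
  have h7 : ∀ v ∈ A, m v = 0 ∨ m v = 1 := by
    intro v hv
    have h8 := h5 v hv
    rcases Nat.lt_or_ge (m v) 2 with h9 | h9
    · omega
    · exfalso
      nlinarith
  constructor
  · intro v hv
    by_cases hvA : v ∈ A
    · have h8 := hA v hvA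
      rcases h7 v hvA with h9 | h9
      · right; left
        omega
      · right; right
        omega
    · exact Or.inl (h0 v hv hvA)
  · have h8 : ((PP 3 H K).filter fun v => (sl 3 f v).card = 12) = A.filter fun v => m v = 1 := by
      ext v
      rw [mem_filter, mem_filter]
      constructor
      · rintro ⟨hv, h9⟩
        by_cases hvA : v ∈ A
        · have h10 := hA v hvA
          exact ⟨hvA, by omega⟩
        · have h10 := h0 v hv hvA
          omega
      · rintro ⟨hvA, h9⟩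
        have h10 := hA v hvA
        exact ⟨hAP hvA, by omega⟩
    rw [h8, card_filter]
    have h9 : ∑ v ∈ A, (if m v = 1 then 1 else 0) = ∑ v ∈ A, m v := by
      refine sum_congr rfl fun v hv => ?_
      rcases h7 v hv with h10 | h10 <;> simp [h10]
    rw [h9, h1]

end Pool.Agent.H38.T35
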